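import Pool.Agent.Helper54.SR.Step
import Pool.Agent.Helper54.PW.Final
import Pool.Agent.Helper54.GS.Main

/-!
# The purely wild inertia conjecture (one point) modulo the solvable radical
-/

set_option autoImplicit false
set_option linter.unusedSectionVars false
set_option linter.unusedVariables false
open scoped Pointwise
open Polynomial Pool.Agent.Helper54.PW

namespace Pool.Agent.Helper54.SR

theorem step_realizable_ell {p : ℕ} [Fact p.Prime] {k : Type} [Field k] [IsAlgClosed k] [CharP k p]
    {ℓ : ℕ} (hℓ : ℓ.Prime) (hℓp : ℓ ≠ p)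
    {G : Type} [Group G] [Finite G] (V : Subgroup G) [V.Normal]
    (hVc : ∀ a b : V, a * b = b * a) (hVℓ : ∀ a : V, a ^ ℓ = 1) (hVne : V ≠ ⊥)
    (hVmin : ∀ W : Subgroup G, W.Normal → W ≤ V → W = ⊥ ∨ W = V)
    (P : Subgroup G) (hP : IsPGroup p P) (hgen : Subgroup.normalClosure (P : Set G) = ⊤)
    (x : ValuationSubring (RatFunc k)) (hx : x ≠ ⊤)
    (hxk : ∀ c : k, algebraMap k (RatFunc k) c ∈ x)
    (h : Realizable k (G ⧸ V) (fun _ : Fin 1 => P.map (QuotientGroup.mk' V)) (fun _ => x)) :
    Realizable k G (fun _ : Fin 1 => P) (fun _ => x) := by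
  obtain ⟨L, _, _, hfd, hgal, φ, hunr, A, hA, hAk, hAX, hst⟩ :=
    exists_cover_of_realizable (P.map (QuotientGroup.mk' V)) x hx hxk h
  apply realizable_of_realAct P _ x hx hxk
  let act : G →* (L ≃ₐ[RatFunc k] L) := φ.toMonoidHom.comp (QuotientGroup.mk' V)
  refine step_ell (p := p) hℓ hℓp V hVc hVℓ hVne hVmin P hP hgen act ?_ ?_
    (fun A hA hX σ hσ => hunr A hA.1 hA.2 hX σ hσ) A ⟨hA, hAk⟩ hAX ?_
  · intro σ
    obtain ⟨g, hg⟩ := QuotientGroup.mk'_surjective V (φ.symm σ)
    exact ⟨g, by
      show φ (QuotientGroup.mk' V g) = σ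
      rw [hg, MulEquiv.apply_symm_apply]⟩
  · intro g
    show φ (QuotientGroup.mk' V g) = 1 ↔ g ∈ V
    rw [map_eq_one_iff φ φ.injective]
    exact QuotientGroup.eq_one_iff g
  · intro σ
    rw [hst]
    constructor
    · rintro ⟨g, ⟨g', hg', rfl⟩, rfl⟩
      exact ⟨g', hg', rfl⟩
    · rintro ⟨g, hg, rfl⟩
      exact ⟨_, ⟨g, hg, rfl⟩, rfl⟩

theorem reduction_solvable_aux {p : ℕ} [Fact p.Prime] {k : Type} [Field k] [IsAlgClosed k]
    [CharP k p] (x : ValuationSubring (RatFunc k)) (hx : x ≠ ⊤)
    (hxk : ∀ c : k, algebraMap k (RatFunc k) c ∈ x) (n : ℕ) :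
    ∀ (G : Type) [Group G] [Finite G], Nat.card G = n → ∀ (N : Subgroup G) [N.Normal],
      Group.IsSolvable N → ∀ (P : Subgroup G), IsPGroup p P →
      Subgroup.normalClosure (P : Set G) = ⊤ →
      Realizable k (G ⧸ N) (fun _ : Fin 1 => P.map (QuotientGroup.mk' N)) (fun _ => x) →
      Realizable k G (fun _ : Fin 1 => P) (fun _ => x) := by
  induction n using Nat.strong_induction_on with
  | _ n ih =>
  intro G _ _ hG N hN hNs P hP hgen h
  by_cases hNe : N = ⊥
  · subst hNe
    apply realizable_congr (QuotientGroup.quotientBot (G := G)).symm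
    have h1 : (fun _ : Fin 1 => P.map (QuotientGroup.mk' (⊥ : Subgroup G))) =
        fun _ : Fin 1 => P.map (QuotientGroup.quotientBot (G := G)).symm.toMonoidHom := by
      funext _
      rfl
    rw [h1] at h
    exact h
  · obtain ⟨ℓ, V, hℓ, hVn, hVN, hVe, hmin, hVc, hVℓ⟩ := exists_minimal_solvable N hNe
    have hstep : Realizable k (G ⧸ V) (fun _ : Fin 1 => P.map (QuotientGroup.mk' V)) (fun _ => x) →
        Realizable k G (fun _ : Fin 1 => P) (fun _ => x) := by
      intro h'
      by_cases hℓp : ℓ = p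
      · subst hℓp
        exact step_realizable (p := ℓ) V hVc hVℓ hVe hmin P hP hgen x hx hxk h'
      · exact step_realizable_ell (p := p) hℓ hℓp V hVc hVℓ hVe hmin P hP hgen x hx hxk h'
    apply hstep
    have hcard : Nat.card (G ⧸ V) < n := by
      rw [← hG, Subgroup.card_eq_card_quotient_mul_card_subgroup V]
      have h1 : 0 < Nat.card (G ⧸ V) := Nat.card_pos
      have h2 : 1 < Nat.card V := by
        have : Nontrivial V := (Subgroup.nontrivial_iff_ne_bot V).2 hVe
        exact Finite.one_lt_card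
      nlinarith
    refine ih _ hcard (G ⧸ V) rfl (N.map (QuotientGroup.mk' V)) ?_
      (P.map (QuotientGroup.mk' V)) (hP.map _) ?_ ?_
    · exact Group.isSolvable_of_surjective
        (f := (QuotientGroup.mk' V).subgroupMap N) ((QuotientGroup.mk' V).subgroupMap_surjective N)
    · have h1 := Subgroup.map_normalClosure (P : Set G) (QuotientGroup.mk' V)
        (QuotientGroup.mk'_surjective V)
      rw [hgen, Subgroup.map_top_of_surjective _ (QuotientGroup.mk'_surjective V)] at h1
      rw [Subgroup.coe_map]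
      exact h1.symm
    · apply realizable_congr (QuotientGroup.quotientQuotientEquivQuotient V N hVN)
      have h1 : (fun _ : Fin 1 => P.map (QuotientGroup.mk' N)) = fun _ : Fin 1 =>
          ((P.map (QuotientGroup.mk' V)).map (QuotientGroup.mk' (N.map (QuotientGroup.mk' V)))).map
            (QuotientGroup.quotientQuotientEquivQuotient V N hVN).toMonoidHom := by
        funext _
        rw [Subgroup.map_map, Subgroup.map_map]
        congr 1
      rw [h1] at h
      exact h

/-- passing to a quotient -/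
theorem realizable_quotient {p : ℕ} [Fact p.Prime] {k : Type} [Field k] [IsAlgClosed k]
    [CharP k p] (G : Type) [Group G] [Finite G] (N : Subgroup G) [N.Normal]
    (P : Subgroup G)
    (x : ValuationSubring (RatFunc k)) (hx : x ≠ ⊤)
    (hxk : ∀ c : k, algebraMap k (RatFunc k) c ∈ x)
    (h : Realizable k G (fun _ : Fin 1 => P) (fun _ => x)) :
      Realizable k (G ⧸ N) (fun _ : Fin 1 => P.map (QuotientGroup.mk' N)) (fun _ => x) := by
  obtain ⟨L, _, _, hfd, hgal, φ, hunr, A, hA, hAk, hAX, hst⟩ :=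
    exists_cover_of_realizable P x hx hxk h
  apply realizable_of_realAct _ _ x hx hxk
  refine ⟨L, _, _, hfd, hgal, (QuotientGroup.mk' N).comp φ.symm.toMonoidHom, ?_, ?_, A, hA, hAk,
    hAX, ?_⟩
  · exact (QuotientGroup.mk'_surjective N).comp φ.symm.surjective
  · intro A' hA' hA'k hXA' σ hσ
    rw [hunr A' hA' hA'k hXA' σ hσ, map_one]
  · intro g
    constructor
    · rintro ⟨g', hg', rfl⟩
      refine ⟨φ g', (hst _).2 ⟨g', hg', rfl⟩, ?_⟩
      show QuotientGroup.mk' N (φ.symm (φ g')) = _
      rw [MulEquiv.symm_apply_apply]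
    · rintro ⟨σ, hσ, rfl⟩
      obtain ⟨g', hg', rfl⟩ := (hst σ).1 hσ
      refine ⟨g', hg', ?_⟩
      show _ = QuotientGroup.mk' N (φ.symm (φ g'))
      rw [MulEquiv.symm_apply_apply]

/-- the trivial group -/
theorem realizable_subsingleton {k : Type} [Field k] [IsAlgClosed k] (G : Type)
    [Group G] [Subsingleton G] (P : Subgroup G) (x : ValuationSubring (RatFunc k)) (hx : x ≠ ⊤)
    (hxk : ∀ c : k, algebraMap k (RatFunc k) c ∈ x) :
    Realizable k G (fun _ : Fin 1 => P) (fun _ => x) := by
  have hsub : Subsingleton ((RatFunc k) ≃ₐ[RatFunc k] (RatFunc k)) := inferInstance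
  haveI : Finite G := inferInstance
  let e : G ≃* ((RatFunc k) ≃ₐ[RatFunc k] (RatFunc k)) :=
    { toFun := fun _ => 1
      invFun := fun _ => 1
      left_inv := fun _ => Subsingleton.elim _ _
      right_inv := fun _ => Subsingleton.elim _ _
      map_mul' := fun _ _ => Subsingleton.elim _ _ }
  refine ⟨RatFunc k, inferInstance, inferInstance, inferInstance, inferInstance, e, ?_, ?_⟩
  · intro A _ _
    exact Subsingleton.elim _ _
  · intro i
    refine ⟨x, ?_, ?_⟩
    · ext y
      rfl
    · have : Subsingleton (Subgroup ((RatFunc k) ≃ₐ[RatFunc k] (RatFunc k))) := inferInstance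
      exact Subsingleton.elim _ _

end Pool.Agent.Helper54.SR
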