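import Pool.Agent.Helper54.SR.Final
import Pool.Agent.Helper54.SL.Final
import Pool.Agent.Helper54.GS.Main2

/-!
# Special linear groups modulo a solvable normal subgroup
-/

set_option autoImplicit false
set_option linter.unusedSectionVars false
set_option linter.unusedVariables false
open scoped Pointwise
open Polynomial Pool.Agent.Helper54.PW

namespace Pool.Agent.Helper54.SR

theorem normalClosure_map_top {G Q : Type} [Group G] [Group Q] (π : G →* Q)
    (hπ : Function.Surjective π) (P : Subgroup G)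
    (hgen : Subgroup.normalClosure (P : Set G) = ⊤) :
    Subgroup.normalClosure ((P.map π : Subgroup Q) : Set Q) = ⊤ := by
  have h1 := Subgroup.map_normalClosure (P : Set G) π hπ
  rw [hgen, Subgroup.map_top_of_surjective _ hπ] at h1
  rw [Subgroup.coe_map]
  exact h1.symm

theorem realizable_sl2_rad {p : ℕ} [Fact p.Prime] (hp5 : 5 ≤ p) {k : Type} [Field k]
    [IsAlgClosed k] [CharP k p] {𝔽 : Type} [Field 𝔽] [Finite 𝔽] [CharP 𝔽 p]
    (G : Type) [Group G] [Finite G] (R : Subgroup G) [R.Normal] (hR : Group.IsSolvable R)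
    (π : Matrix.SpecialLinearGroup (Fin 2) 𝔽 →* G ⧸ R) (hπ : Function.Surjective π)
    (P : Subgroup G) (hP : IsPGroup p P) (hgen : Subgroup.normalClosure (P : Set G) = ⊤)
    (x : ValuationSubring (RatFunc k)) (hx : x ≠ ⊤)
    (hxk : ∀ c : k, algebraMap k (RatFunc k) c ∈ x) :
    Realizable k G (fun _ : Fin 1 => P) (fun _ => x) := by
  refine reduction_solvable_aux (p := p) x hx hxk _ G rfl R hR P hP hgen ?_
  have hbot : IsPGroup p (⊥ : Subgroup (G ⧸ R)) := IsPGroup.of_bot
  exact Pool.Agent.Helper54.SL.realizable_sl2 hp5 (G ⧸ R) ⊥ hbot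
    ((QuotientGroup.quotientBot (G := G ⧸ R)).symm.toMonoidHom.comp π)
    ((QuotientGroup.quotientBot (G := G ⧸ R)).symm.surjective.comp hπ) _ (hP.map _)
    (normalClosure_map_top _ (QuotientGroup.mk'_surjective R) P hgen) x hx hxk

theorem realizable_pi_rad {p : ℕ} [Fact p.Prime] (hp5 : 5 ≤ p) {k : Type} [Field k]
    [IsAlgClosed k] [CharP k p] {ι : Type} [Finite ι] (m : ι → ℕ) (hm : ∀ i, 2 ≤ m i)
    (𝔽 : ι → Type) [∀ i, Field (𝔽 i)] [∀ i, Finite (𝔽 i)] [∀ i, CharP (𝔽 i) p]
    (G : Type) [Group G] [Finite G] (R : Subgroup G) [R.Normal] (hR : Group.IsSolvable R)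
    (π : (∀ i, Matrix.SpecialLinearGroup (Fin (m i)) (𝔽 i)) →* G ⧸ R)
    (hπ : Function.Surjective π)
    (P : Subgroup G) (hP : IsPGroup p P) (hgen : Subgroup.normalClosure (P : Set G) = ⊤)
    (hPR : Nat.card (P.map (QuotientGroup.mk' R)) = p)
    (x : ValuationSubring (RatFunc k)) (hx : x ≠ ⊤)
    (hxk : ∀ c : k, algebraMap k (RatFunc k) c ∈ x) :
    Realizable k G (fun _ : Fin 1 => P) (fun _ => x) := by
  refine reduction_solvable_aux (p := p) x hx hxk _ G rfl R hR P hP hgen ?_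
  have hbot : IsPGroup p (⊥ : Subgroup (G ⧸ R)) := IsPGroup.of_bot
  refine Pool.Agent.Helper54.GS.realizable_pi hp5 m hm 𝔽 (G ⧸ R) ⊥ hbot
    ((QuotientGroup.quotientBot (G := G ⧸ R)).symm.toMonoidHom.comp π)
    ((QuotientGroup.quotientBot (G := G ⧸ R)).symm.surjective.comp hπ) _ (hP.map _)
    (normalClosure_map_top _ (QuotientGroup.mk'_surjective R) P hgen) ?_ x hx hxk
  have h1 : (P.map (QuotientGroup.mk' R)).map (QuotientGroup.mk' (⊥ : Subgroup (G ⧸ R))) =
      (P.map (QuotientGroup.mk' R)).map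
        (QuotientGroup.quotientBot (G := G ⧸ R)).symm.toMonoidHom := rfl
  rw [h1, Subgroup.card_map_of_injective
    (f := (QuotientGroup.quotientBot (G := G ⧸ R)).symm.toMonoidHom)
    (QuotientGroup.quotientBot (G := G ⧸ R)).symm.injective, hPR]

end Pool.Agent.Helper54.SR
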