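import Pool.Agent.Helper76.SR.D6a
import Pool.Agent.Helper87.SR.Gaschutz
import Pool.Agent.Helper87.SR.Roots
import Pool.Agent.Helper63.SR.FiniteQuot
import Pool.Agent.Helper55.SR.LocL0
import Pool.Agent.Helper16.SR.P4
import Pool.Agent.Helper51.SR.D11
import Pool.Agent.Helper4.SR.Theta
import Pool.Agent.Helper4.SR.Unif
import Pool.Agent.Helper32.SR.MkEq
import Pool.Agent.Helper32.SR.HenselSplit
import Pool.Agent.Helper37.SR.Ev
import Pool.Agent.Helper45.SR.CertMap
import Pool.Agent.Helper45.SR.SpanEval
import Pool.Agent.Helper13.SR.ExistsH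
import Pool.Agent.Helper34.SR.Theta
import Pool.Agent.Helper48.SR.IdealIdentity
import Pool.Agent.Helper14.SR.Parts
import Pool.Agent.Helper14.SR.Res
import Pool.Agent.Helper6.SR.CertValuation
import Pool.Agent.Helper43.SR.L7
import Pool.Agent.Helper43.SR.D5a
import Pool.Agent.Helper43.SR.L2b
import Pool.Agent.Helper10.SR.Residues
import Pool.Agent.Helper42.SR.C1b
import Pool.Agent.Helper57.SR.ExistsCyclicNorm
import Pool.Agent.Helper52.SR.P2
import Pool.Agent.Helper52.SR.Tsen
import Pool.Agent.Helper67.SR.ModByMonic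
import Pool.Agent.Helper67.SR.CertDescent
import Pool.Agent.Helper73.SR.RegularPoly
import Pool.Agent.Helper30.SR.PullbackK
import Pool.Agent.Helper95.SR.FinRam
import Pool.Agent.Helper33.SR.FixedUnit
import Pool.Agent.Helper33.SR.Hilbert90
import Pool.Agent.Helper46.SR.Crossed
import Pool.Agent.Helper34.SR.ExistsFunction
import Pool.Agent.Helper50.SR.CommonCert
import Pool.Agent.Helper51.SR.C5
import Pool.Agent.Helper6.SR.Twist
import Pool.Agent.Helper8.SR.GoodGenMain
import Pool.Agent.Helper9.SR.CertGeneric0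
import Pool.Agent.Helper97.SR.Kummer

/-!
# All first-wave modules of the SR project
-/
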