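import Pool.Agent.Helper54.SR.Defs

/-!
# Basic facts on `Un`, `IsPl`, `Over` and Galois translates of places
-/

set_option autoImplicit false
set_option linter.unusedSectionVars false
open scoped Pointwise
open Polynomial Pool.Agent.Helper54.PW

namespace Pool.Agent.Helper54.SR

section un
variable {L : Type} [Field L] {A : ValuationSubring L}

theorem Un.mul' {x y : L} (hx : Un A x) (hy : Un A y) : Un A (x * y) :=
  ⟨mul_ne_zero hx.1 hy.1, A.mul_mem _ _ hx.2.1 hy.2.1, by
    rw [mul_inv]; exact A.mul_mem _ _ hx.2.2 hy.2.2⟩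

theorem Un.inv' {x : L} (hx : Un A x) : Un A x⁻¹ :=
  ⟨inv_ne_zero hx.1, hx.2.2, by rw [inv_inv]; exact hx.2.1⟩

theorem un_one' : Un A (1 : L) := ⟨one_ne_zero, A.one_mem, by rw [inv_one]; exact A.one_mem⟩

theorem not_un_of_nonunit {x : L} (hx : x ∈ A.nonunits) : ¬ Un A x := by
  intro h
  rw [ValuationSubring.mem_nonunits_iff_or] at hx
  rcases hx with h0 | h0
  · exact h.1 h0
  · exact h0 h.2.2

theorem un_or_nonunit {x : L} (hx : x ∈ A) : Un A x ∨ x ∈ A.nonunits := by
  by_cases h : x ∈ A.nonunits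
  · exact Or.inr h
  · left
    rw [ValuationSubring.mem_nonunits_iff_or] at h
    push Not at h
    exact ⟨h.1, hx, h.2⟩

end un

section smul
variable {k L : Type} [Field k] [Field L] [Algebra (RatFunc k) L] {A : ValuationSubring L}

theorem mem_smul_iff (σ : L ≃ₐ[RatFunc k] L) (x : L) : σ x ∈ σ • A ↔ x ∈ A := by
  constructor
  · intro h
    rw [ValuationSubring.mem_pointwise_smul_iff_inv_smul_mem] at h
    have : σ⁻¹ • (σ x) = x := σ.symm_apply_apply x
    rwa [this] at h
  · intro h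
    exact ValuationSubring.smul_mem_pointwise_smul _ _ _ h

theorem mem_smul_iff' (σ : L ≃ₐ[RatFunc k] L) (x : L) : x ∈ σ • A ↔ σ⁻¹ x ∈ A := by
  rw [ValuationSubring.mem_pointwise_smul_iff_inv_smul_mem]; rfl

theorem un_smul_iff (σ : L ≃ₐ[RatFunc k] L) (x : L) : Un (σ • A) (σ x) ↔ Un A x := by
  unfold Un
  rw [mem_smul_iff, ← map_inv₀, mem_smul_iff, map_ne_zero_iff _ σ.injective]

theorem un_smul_iff' (σ : L ≃ₐ[RatFunc k] L) (x : L) : Un (σ⁻¹ • A) x ↔ Un A (σ x) := by
  have := un_smul_iff (A := A) σ⁻¹ (σ x)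
  rw [← this]
  have h2 : σ⁻¹ (σ x) = x := σ.symm_apply_apply x
  rw [h2]

theorem nonunits_smul_iff (σ : L ≃ₐ[RatFunc k] L) (x : L) :
    σ x ∈ (σ • A).nonunits ↔ x ∈ A.nonunits := by
  rw [ValuationSubring.mem_nonunits_iff_or, ValuationSubring.mem_nonunits_iff_or, ← map_inv₀,
    mem_smul_iff, map_eq_zero_iff _ σ.injective]

theorem co_fixed (σ : L ≃ₐ[RatFunc k] L) (c : k) : σ (co k L c) = co k L c := σ.commutes _

theorem tX_fixed (σ : L ≃ₐ[RatFunc k] L) : σ (tX k L) = tX k L := σ.commutes _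

theorem isPl_smul (σ : L ≃ₐ[RatFunc k] L) (hA : IsPl k A) : IsPl k (σ • A) := by
  refine ⟨fun h => hA.1 ?_, fun c => ?_⟩
  · rw [eq_top_iff]
    intro x _
    rw [← mem_smul_iff σ, h]
    trivial
  · rw [← co_fixed σ, mem_smul_iff]
    exact hA.2 c

theorem over_smul_iff (σ : L ≃ₐ[RatFunc k] L) (c : k) : Over k (σ • A) c ↔ Over k A c := by
  unfold Over
  have : tX k L - co k L c = σ (tX k L - co k L c) := by
    rw [map_sub, tX_fixed, co_fixed]
  rw [this, nonunits_smul_iff, ← this]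

theorem tX_mem_smul_iff (σ : L ≃ₐ[RatFunc k] L) : tX k L ∈ σ • A ↔ tX k L ∈ A := by
  rw [← tX_fixed σ, mem_smul_iff, tX_fixed]

theorem tX_mem_of_over (hA : IsPl k A) {c : k} (h : Over k A c) : tX k L ∈ A := by
  have h1 : tX k L - co k L c ∈ A := (A.nonunits_subset h)
  have := A.add_mem _ _ h1 (hA.2 c)
  rwa [sub_add_cancel] at this

theorem co_un (hA : IsPl k A) {c : k} (hc : c ≠ 0) : Un A (co k L c) := by
  refine ⟨?_, hA.2 c, ?_⟩
  · unfold co
    rw [map_ne_zero_iff _ (algebraMap (RatFunc k) L).injective,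
      map_ne_zero_iff _ (algebraMap k (RatFunc k)).injective]
    exact hc
  · have : (co k L c)⁻¹ = co k L c⁻¹ := by
      unfold co
      rw [map_inv₀, map_inv₀]
    rw [this]
    exact hA.2 _

theorem co_nonunit (hA : IsPl k A) {c : k} (h : co k L c ∈ A.nonunits) : c = 0 := by
  by_contra hc
  exact not_un_of_nonunit h (co_un hA hc)

theorem nonunits_sub {x y : L} (hx : x ∈ A.nonunits) (hy : y ∈ A.nonunits) :
    x - y ∈ A.nonunits := sub_mem hx hy

theorem over_unique (hA : IsPl k A) {c c' : k} (h : Over k A c) (h' : Over k A c') : c = c' := by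
  have h1 := nonunits_sub h' h
  have h2 : tX k L - co k L c' - (tX k L - co k L c) = co k L (c - c') := by
    unfold co
    rw [map_sub, map_sub]; ring
  rw [h2] at h1
  exact sub_eq_zero.1 (co_nonunit hA h1)

theorem co_mul (a b : k) : co k L (a * b) = co k L a * co k L b := by
  unfold co
  rw [map_mul, map_mul]

theorem co_one : co k L (1 : k) = 1 := by
  unfold co
  rw [map_one, map_one]

theorem co_pow (a : k) (n : ℕ) : co k L (a ^ n) = co k L a ^ n := by
  unfold co
  rw [map_pow, map_pow]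

theorem co_injective : Function.Injective (co k L) :=
  (algebraMap (RatFunc k) L).injective.comp (algebraMap k (RatFunc k)).injective

theorem co_map {L' : Type} [Field L'] [Algebra (RatFunc k) L'] (j : L →ₐ[RatFunc k] L') (c : k) :
    j (co k L c) = co k L' c := j.commutes _

theorem tX_map {L' : Type} [Field L'] [Algebra (RatFunc k) L'] (j : L →ₐ[RatFunc k] L') :
    j (tX k L) = tX k L' := j.commutes _

end smul

end Pool.Agent.Helper54.SR
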