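import Pool.Agent.Helper54.PW.Defs
import Pool.Agent.Helper92.PW.DefsReal

/-!
# Definitions for the reduction of the purely wild inertia conjecture modulo the solvable radical
-/

set_option autoImplicit false
open scoped Pointwise
open Polynomial Pool.Agent.Helper54.PW

namespace Pool.Agent.Helper54.SR

section places
variable (k : Type) {L : Type} [Field k] [Field L] [Algebra (RatFunc k) L]

/-- constants of an extension of `k(X)` -/
noncomputable def co (k L : Type) [Field k] [Field L] [Algebra (RatFunc k) L] (c : k) : L :=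
  algebraMap (RatFunc k) L (algebraMap k (RatFunc k) c)

/-- places over `k` -/
def IsPl (A : ValuationSubring L) : Prop := A ≠ ⊤ ∧ ∀ c : k, co k L c ∈ A

/-- the place `A` lies over the point `X = c` -/
def Over (A : ValuationSubring L) (c : k) : Prop := tX k L - co k L c ∈ A.nonunits

/-- `w` is a local parameter at the place of `k(X)` below `A` -/
def BasePar (A : ValuationSubring L) (w : RatFunc k) : Prop :=
  w ≠ 0 ∧ algebraMap (RatFunc k) L w ∈ A.nonunits ∧
    ∀ a : RatFunc k, a ≠ 0 → ∃ n : ℤ, algebraMap (RatFunc k) L (a * w ^ n) ∈ A ∧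
      (algebraMap (RatFunc k) L (a * w ^ n))⁻¹ ∈ A

end places

/-- `x` is a unit of the valuation ring `A` -/
def Un {L : Type} [Field L] (A : ValuationSubring L) (x : L) : Prop := x ≠ 0 ∧ x ∈ A ∧ x⁻¹ ∈ A

/-- `x` is a uniformizer of `A` and `A` is discrete -/
def Unif {L : Type} [Field L] (A : ValuationSubring L) (x : L) : Prop :=
  x ≠ 0 ∧ x ∈ A.nonunits ∧ ∀ y : L, y ≠ 0 → ∃ n : ℤ, Un A (y * x ^ n)

/-- `π` generates the ideal of `A` generated by `a` and `b` (`A` a valuation ring) -/
def Gen {F : Type} [Field F] (A : ValuationSubring F) (π a b : F) : Prop :=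
  (π = a ∨ π = b) ∧ π ≠ 0 ∧ a / π ∈ A ∧ b / π ∈ A

section lifts
variable {k F L G : Type} [Field k] [Field F] [Field L] [Algebra (RatFunc k) F]
  [Algebra (RatFunc k) L] [Group G]

/-- `ρ` solves the embedding problem given by `act : G → Gal(F/k(X))`; `i : F → L` is the inclusion -/
def IsLift (act : G →* (F ≃ₐ[RatFunc k] F)) (i : F →ₐ[RatFunc k] L)
    (ρ : (L ≃ₐ[RatFunc k] L) →* G) : Prop :=
  ∀ (σ : L ≃ₐ[RatFunc k] L) (x : F), σ (i x) = i (act (ρ σ) x)

/-- `ρ` is trivial on the decomposition groups of the places over `X = c` -/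
def UnrAt (ρ : (L ≃ₐ[RatFunc k] L) →* G) (c : k) : Prop :=
  ∀ A : ValuationSubring L, IsPl k A → Over k A c → ∀ σ : L ≃ₐ[RatFunc k] L, σ • A = A → ρ σ = 1

end lifts

/-- all decomposition groups at the places where `X` is finite are trivial -/
def UnrLine (k F : Type) [Field k] [Field F] [Algebra (RatFunc k) F] : Prop :=
  ∀ A : ValuationSubring F, IsPl k A → tX k F ∈ A →
    ∀ σ : F ≃ₐ[RatFunc k] F, σ • A = A → σ = 1

/-! ## plane curves -/

section curve

/-- the polynomial `f` over an extension of the ground field -/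
noncomputable def fS {k R : Type} [Field k] [CommRing R] (φ : k →+* R) (f : k[X][X]) : R[X][X] :=
  f.map (Polynomial.mapRingHom φ)

/-- a certificate for the divisibility by `ℓ` of the difference of the points `(c, η)` and `(u, y)` of the
plane curve `f = 0` -/
def Cert (ℓ : ℕ) {k R : Type} [Field k] [CommRing R] (φ : k →+* R) (f : k[X][X]) (c η : k)
    (u y : R) : Prop :=
  ∃ H₁ H₂ H₁₂ : R[X][X], H₁.natDegree < f.natDegree ∧
    Ideal.span (Set.range fun q : ℕ × ℕ => (H₁.coeff q.1).coeff q.2) = ⊤ ∧
    AdjoinRoot.mk (fS φ f) H₁₂ ^ ℓ =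
      AdjoinRoot.mk (fS φ f) H₂ * AdjoinRoot.mk (fS φ f) H₁ ^ (ℓ - 1) ∧
    Ideal.span {AdjoinRoot.mk (fS φ f) H₁, AdjoinRoot.mk (fS φ f) H₂} *
      Ideal.span {AdjoinRoot.mk (fS φ f) (C (X - C u)), AdjoinRoot.mk (fS φ f) (X - C (C y))} =
    Ideal.span {AdjoinRoot.mk (fS φ f) (C (X - C u))} *
      Ideal.span {AdjoinRoot.mk (fS φ f) (C (X - C (φ c))),
        AdjoinRoot.mk (fS φ f) (X - C (C (φ η)))}

end curve

/-! ## power series in `t` over Laurent series in `u` -/

section series
variable (k : Type) [Field k]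

/-- power series in `t` with coefficients Laurent series in `u` -/
abbrev EE : Type := PowerSeries (LaurentSeries k)

/-- power series in `t` with coefficients power series in `u` -/
abbrev OO : Type := PowerSeries (PowerSeries k)

/-- the inclusion of `OO` in `EE` -/
noncomputable def iI : OO k →+* EE k := PowerSeries.map (algebraMap (PowerSeries k) (LaurentSeries k))

/-- the variable `u` of `OO` -/
noncomputable def uO : OO k := PowerSeries.C PowerSeries.X

/-- the variable `t` of `OO` -/
noncomputable def tO : OO k := PowerSeries.X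

/-- the embedding of `k⟦t⟧[X]` in `OO`, `X ↦ u` -/
noncomputable def jO : Polynomial (PowerSeries k) →+* OO k :=
  Polynomial.eval₂RingHom (PowerSeries.map (PowerSeries.C (R := k))) (uO k)

/-- the embedding of `k⟦t⟧[X]` in `EE`, `X ↦ u` -/
noncomputable def jE : Polynomial (PowerSeries k) →+* EE k := (iI k).comp (jO k)

variable {k}

/-- a power series in `u` as an element of `EE`, constant in `t` -/
noncomputable def cE (y : PowerSeries k) : EE k := iI k (PowerSeries.C y)

/-- all exponents of `u` in `z` are at most `m` -/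
def BD (m : ℤ) (z : EE k) : Prop :=
  ∀ (r : ℕ) (e : ℤ), m < e → (PowerSeries.coeff r z).coeff e = 0

/-- weight at most `m`, where `u` has weight `1` and `Y` has weight `d` -/
def WF (d : ℕ) (m : ℤ) (H : Polynomial (EE k)) : Prop :=
  ∀ j : ℕ, BD (m - d * j) (H.coeff j)

end series

end Pool.Agent.Helper54.SR
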