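import Pool.Agent.Helper54.SR.Defs

/-!
# Specification, block D: divisibility by `ℓ` in the class group of an affine curve
-/

set_option autoImplicit false
set_option linter.unusedVariables false
set_option linter.unusedSectionVars false
open scoped Pointwise
open Polynomial Pool.Agent.Helper54.PW

namespace Pool.Agent.Helper54.SR

section series
variable {k : Type} [Field k]

/-- SR-D1 -/
theorem hensel_split {n : ℕ} (f : k[X][X]) (hf : f.Monic) (η : Fin n → k)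
    (hη : Function.Injective η)
    (hf0 : f.map (Polynomial.evalRingHom 0) = ∏ i, (X - C (η i))) :
    ∃ y : Fin n → PowerSeries k, (∀ i, PowerSeries.constantCoeff (y i) = η i) ∧
      f.map (Polynomial.coeToPowerSeries.ringHom (R := k)) = ∏ i, (X - C (y i)) := sorry

/-- SR-D2 -/
theorem principal_parts {n : ℕ} (y : Fin n → PowerSeries k)
    (hy : Function.Injective fun i => PowerSeries.constantCoeff (y i))
    (v : Fin n → LaurentSeries k) :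
    ∃ s : Fin n → LaurentSeries k, (∀ j, ∀ e : ℤ, 0 ≤ e → (s j).coeff e = 0) ∧
      ∀ i, ∃ r : PowerSeries k,
        v i - ∑ j : Fin n, s j * algebraMap (PowerSeries k) (LaurentSeries k) (y i) ^ (j : ℕ) =
          algebraMap (PowerSeries k) (LaurentSeries k) r := sorry

/-- SR-D3 -/
theorem lift_section {n : ℕ} (y : Fin n → PowerSeries k)
    (hy : Function.Injective fun i => PowerSeries.constantCoeff (y i)) (i₀ : Fin n) (U : EE k)
    (hU : PowerSeries.constantCoeff U = 1) (a : Fin n → Polynomial k) :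
    ∃ s : Fin n → EE k,
      (∀ j, PowerSeries.constantCoeff (s j) =
        algebraMap (PowerSeries k) (LaurentSeries k) (a j : PowerSeries k)) ∧
      (∀ j r, r ≠ 0 → ∀ e : ℤ, 0 ≤ e → (PowerSeries.coeff r (s j)).coeff e = 0) ∧
      (∀ i, i ≠ i₀ → ∑ j : Fin n, s j * cE (y i) ^ (j : ℕ) ∈ (iI k).range) ∧
      U * ∑ j : Fin n, s j * cE (y i₀) ^ (j : ℕ) ∈ (iI k).range := sorry

/-- SR-D4 -/
theorem regular_poly {n d M : ℕ} (y : Fin n → PowerSeries k)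
    (hy : Function.Injective fun i => PowerSeries.constantCoeff (y i))
    (H : Polynomial (EE k)) (hdeg : H.degree < n) (hW : WF d M H)
    (hreg : ∀ i, H.eval (cE (y i)) ∈ (iI k).range) :
    ∃ H' : (PowerSeries k)[X][X], H'.degree < n ∧ H'.map (jE k) = H ∧
      ∀ j, H'.coeff j ≠ 0 → (H'.coeff j).natDegree + d * j ≤ M := sorry

/-- SR-D5a -/
theorem WF.mul {d : ℕ} {m m' : ℤ} {H H' : Polynomial (EE k)} (h : WF d m H) (h' : WF d m' H') :
    WF d (m + m') (H * H') := sorry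

/-- SR-D5a -/
theorem WF.pow {d : ℕ} {m : ℤ} {H : Polynomial (EE k)} (h : WF d m H) (e : ℕ) :
    WF d (e * m) (H ^ e) := sorry

/-- SR-D5b -/
theorem WF.modByMonic {d n : ℕ} {m : ℤ} {f : Polynomial (EE k)} (hf : f.Monic)
    (hn : f.natDegree = n) (hfW : WF d (d * n) f) {H : Polynomial (EE k)} (h : WF d m H) :
    WF d m (H %ₘ f) := sorry

/-- SR-D6a -/
theorem exists_U {ℓ : ℕ} (hℓ : (ℓ : k) ≠ 0) : ∃ U : EE k, PowerSeries.constantCoeff U = 1 ∧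
    U ^ ℓ * iI k (uO k) = iI k (uO k) - iI k (tO k) := sorry

/-- SR-D6b -/
theorem mk_eq_of_values {n : ℕ} (f : k[X][X]) (y : Fin n → PowerSeries k)
    (hy : Function.Injective fun i => PowerSeries.constantCoeff (y i))
    (hfy : f.map (Polynomial.coeToPowerSeries.ringHom (R := k)) = ∏ i, (X - C (y i)))
    (A B : (PowerSeries k)[X][X])
    (h : ∀ i, (A.map (jE k)).eval (cE (y i)) = (B.map (jE k)).eval (cE (y i))) :
    AdjoinRoot.mk (fS (algebraMap k (PowerSeries k)) f) A =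
      AdjoinRoot.mk (fS (algebraMap k (PowerSeries k)) f) B := sorry

/-- SR-D6c: evaluation at `u = 0` -/
theorem exists_ev0 (k : Type) [Field k] : ∃ e : OO k →+* PowerSeries k,
    (∀ y : PowerSeries k, e (PowerSeries.C y) = PowerSeries.C (PowerSeries.constantCoeff y)) ∧
    ∀ (H : (PowerSeries k)[X][X]) (y : PowerSeries k),
      e ((H.map (jO k)).eval (PowerSeries.C y)) =
        evalEval 0 (PowerSeries.C (PowerSeries.constantCoeff y)) H := sorry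

/-- SR-D6c: evaluation at `u = t` -/
theorem exists_evt (k : Type) [Field k] : ∃ e : OO k →+* PowerSeries k,
    e (uO k) = PowerSeries.X ∧ e (tO k) = PowerSeries.X ∧
    (∀ y : PowerSeries k, e (PowerSeries.C y) = y) ∧
    ∀ (H : (PowerSeries k)[X][X]) (y : PowerSeries k),
      e ((H.map (jO k)).eval (PowerSeries.C y)) = evalEval PowerSeries.X y H := sorry

/-- SR-D6 -/
theorem exists_H {ℓ : ℕ} (hℓ0 : 0 < ℓ) (hℓ : (ℓ : k) ≠ 0) {n : ℕ} (f : k[X][X]) (hf : f.Monic)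
    (hn : f.natDegree = n) (y : Fin n → PowerSeries k)
    (hy : Function.Injective fun i => PowerSeries.constantCoeff (y i))
    (hfy : f.map (Polynomial.coeToPowerSeries.ringHom (R := k)) = ∏ i, (X - C (y i)))
    (i₀ : Fin n) (d : ℕ) (hd : ∀ j ≤ n, (f.coeff j).natDegree + d * j ≤ d * n) :
    ∃ (M : ℕ) (H₁ H₂ H₁₂ : (PowerSeries k)[X][X]), 0 < M ∧
      H₁.degree < n ∧ H₂.degree < n ∧
      AdjoinRoot.mk (fS (algebraMap k (PowerSeries k)) f) H₁₂ ^ ℓ =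
        AdjoinRoot.mk (fS (algebraMap k (PowerSeries k)) f) H₂ *
          AdjoinRoot.mk (fS (algebraMap k (PowerSeries k)) f) H₁ ^ (ℓ - 1) ∧
      H₁.map (Polynomial.mapRingHom (PowerSeries.constantCoeff (R := k))) = C X ∧
      H₂.map (Polynomial.mapRingHom (PowerSeries.constantCoeff (R := k))) = C (X ^ M) ∧
      (∀ j, H₂.coeff j ≠ 0 → (H₂.coeff j).natDegree + d * j ≤ M) ∧
      (evalEval 0 (PowerSeries.C (PowerSeries.constantCoeff (y i₀))) H₁ = 0 ∧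
        evalEval 0 (PowerSeries.C (PowerSeries.constantCoeff (y i₀))) H₂ = 0) ∧
      ∀ i, i ≠ i₀ → evalEval PowerSeries.X (y i) H₁ = 0 ∧ evalEval PowerSeries.X (y i) H₂ = 0 :=
  sorry

end series

section rings

/-- SR-D7a -/
theorem finite_quot {S κ : Type} [CommRing S] [IsLocalRing S] [Field κ] (π : S →+* κ)
    (hπ : Function.Surjective π) (f : S[X][X]) (hf : f.Monic) {n d M : ℕ} (hn : f.natDegree = n)
    (hd : ∀ j < n, (f.coeff j).natDegree + d * j ≤ d * n) (H : S[X][X]) (hHn : H.degree < n)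
    (hH : ∀ j, H.coeff j ≠ 0 → (H.coeff j).natDegree + d * j ≤ M)
    (hHπ : H.map (Polynomial.mapRingHom π) = C (X ^ M)) :
    Module.Finite S (AdjoinRoot f ⧸ Ideal.span {AdjoinRoot.mk f H}) := sorry

/-- SR-D7b -/
theorem mem_span_of_eval {S κ : Type} [CommRing S] [IsLocalRing S] [Field κ] (π : S →+* κ)
    (hπ : Function.Surjective π) (f : S[X][X]) (hf : f.Monic) {n M : ℕ} (hn : f.natDegree = n)
    (H₁ H₂ : S[X][X]) (hfin : Module.Finite S (AdjoinRoot f ⧸ Ideal.span {AdjoinRoot.mk f H₂}))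
    (hM : 0 < M) (h1 : H₁.map (Polynomial.mapRingHom π) = C X)
    (h2 : H₂.map (Polynomial.mapRingHom π) = C (X ^ M)) (a b : Fin n → S)
    (hroot : ∀ i, evalEval (a i) (b i) f = 0) (e1 : ∀ i, evalEval (a i) (b i) H₁ = 0)
    (e2 : ∀ i, evalEval (a i) (b i) H₂ = 0) (hb : ∀ i j, i ≠ j → IsUnit (b i - b j))
    (B : S[X][X]) (hB : ∀ i, evalEval (a i) (b i) B = 0) :
    AdjoinRoot.mk f B ∈ Ideal.span {AdjoinRoot.mk f H₁, AdjoinRoot.mk f H₂} := sorry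

/-- SR-D8 -/
theorem ideal_identity {S : Type} [CommRing S] (f : S[X][X]) (hf : f.Monic) {n : ℕ} (t η : S)
    (y : Fin n → S) (i₀ : Fin n) (hfy : f.map (evalRingHom t) = ∏ i, (X - C (y i)))
    (h0 : evalEval 0 η f = 0) (hy : ∀ i j, i ≠ j → IsUnit (y i - y j))
    (hη : ∀ i, i ≠ i₀ → IsUnit (η - y i)) (J : Ideal (AdjoinRoot f))
    (hJ : ∀ B : S[X][X], AdjoinRoot.mk f B ∈ J ↔
      (evalEval 0 η B = 0 ∧ ∀ i, i ≠ i₀ → evalEval t (y i) B = 0)) :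
    J * Ideal.span {AdjoinRoot.mk f (C (X - C t)), AdjoinRoot.mk f (X - C (C (y i₀)))} =
      Ideal.span {AdjoinRoot.mk f (C (X - C t))} *
        Ideal.span {AdjoinRoot.mk f (C (X - C 0)), AdjoinRoot.mk f (X - C (C η))} := sorry

/-- SR-D8' -/
theorem cert_generic0 {k : Type} [Field k] {ℓ : ℕ} (hℓ0 : 0 < ℓ) (hℓ : (ℓ : k) ≠ 0) {n : ℕ}
    (f : k[X][X]) (hf : f.Monic) (hn : f.natDegree = n) (η : Fin n → k)
    (hη : Function.Injective η)
    (hf0 : f.map (Polynomial.evalRingHom 0) = ∏ i, (X - C (η i))) (i₀ : Fin n) :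
    ∃ y : PowerSeries k, evalEval PowerSeries.X y (fS (algebraMap k (PowerSeries k)) f) = 0 ∧
      Cert ℓ (algebraMap k (PowerSeries k)) f 0 (η i₀) PowerSeries.X y := sorry

/-- SR-D0 -/
theorem cert_translate {ℓ : ℕ} {k S : Type} [Field k] [CommRing S] (φ : k →+* S) (f : k[X][X])
    (c η : k) (u y : S)
    (h : Cert ℓ φ (f.map (Polynomial.compRingHom (X + C c))) 0 η u y) :
    Cert ℓ φ f c η (u + φ c) y := sorry

/-- SR-D9 -/
theorem cert_descent {ℓ : ℕ} {k S : Type} [Field k] [CommRing S] [Algebra k S] (f : k[X][X])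
    (c η : k) (u y : S) (h : Cert ℓ (algebraMap k S) f c η u y) :
    ∃ (A : Subalgebra k S) (hu : u ∈ A) (hy : y ∈ A), A.FG ∧
      Cert ℓ (algebraMap k A) f c η (⟨u, hu⟩ : A) (⟨y, hy⟩ : A) := sorry

/-- SR-D10 -/
theorem cert_map {ℓ : ℕ} {k R R' : Type} [Field k] [CommRing R] [CommRing R'] (φ : k →+* R)
    (ψ : R →+* R') (f : k[X][X]) (c η : k) (u y : R) (h : Cert ℓ φ f c η u y) :
    Cert ℓ (ψ.comp φ) f c η (ψ u) (ψ y) := sorry

/-- SR-D11 -/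
theorem common_point {k : Type} [Field k] [IsAlgClosed k] {B R₁ R₂ : Type} [CommRing B]
    [IsDomain B] [Algebra k B] [CommRing R₁] [Algebra k R₁] [CommRing R₂] [Algebra k R₂]
    [Algebra.FiniteType k R₁] [Algebra.FiniteType k R₂] (i₁ : B →ₐ[k] R₁) (i₂ : B →ₐ[k] R₂)
    (h₁ : Function.Injective i₁) (h₂ : Function.Injective i₂) :
    ∃ (p₁ : R₁ →ₐ[k] k) (p₂ : R₂ →ₐ[k] k), p₁.comp i₁ = p₂.comp i₂ := sorry

/-- SR-D11' -/
theorem exists_common_cert {k : Type} [Field k] [IsAlgClosed k] {ℓ : ℕ} (hℓ0 : 0 < ℓ)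
    (hℓ : (ℓ : k) ≠ 0) {n : ℕ} (f : k[X][X]) (hf : f.Monic) (hn : f.natDegree = n)
    (hirr : Irreducible f) (c₁ c₂ : k) (η₁ η₂ : Fin n → k)
    (hη₁ : Function.Injective η₁) (hη₂ : Function.Injective η₂)
    (hf₁ : f.map (Polynomial.evalRingHom c₁) = ∏ i, (X - C (η₁ i)))
    (hf₂ : f.map (Polynomial.evalRingHom c₂) = ∏ i, (X - C (η₂ i))) (i₁ i₂ : Fin n) :
    ∃ u y : k, Cert ℓ (RingHom.id k) f c₁ (η₁ i₁) u y ∧
      Cert ℓ (RingHom.id k) f c₂ (η₂ i₂) u y := sorry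

/-- SR-D12 -/
theorem cert_valuation {ℓ : ℕ} (hℓ0 : 0 < ℓ) {k F : Type} [Field k] [Field F] (f : k[X][X])
    (hf : f.Monic) (j : k[X][X] →+* F) (hj : ∀ B, j B = 0 ↔ f ∣ B) (c₁ η₁ c₂ η₂ u y : k)
    (h₁ : Cert ℓ (RingHom.id k) f c₁ η₁ u y) (h₂ : Cert ℓ (RingHom.id k) f c₂ η₂ u y)
    (hn : 0 < f.natDegree) :
    ∃ g : F, g ≠ 0 ∧ ∀ A : ValuationSubring F, (∀ B, j B ∈ A) → ∃ x π₁ π₂ : F, x ≠ 0 ∧
      Gen A π₁ (j (C (X - C c₁))) (j (X - C (C η₁))) ∧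
      Gen A π₂ (j (C (X - C c₂))) (j (X - C (C η₂))) ∧ Un A (g * x ^ ℓ * π₂ / π₁) := sorry

end rings

section places
variable {k F : Type} [Field k] [IsAlgClosed k] [Field F] [Algebra (RatFunc k) F]
  [FiniteDimensional (RatFunc k) F] [IsGalois (RatFunc k) F]

/-- SR-D13a -/
theorem exists_residues (S : Finset (ValuationSubring F))
    (hS : ∀ A ∈ S, IsPl k A ∧ tX k F ∈ A) (c : ValuationSubring F → k) :
    ∃ y : F, (pk k F).IsIntegralElem y ∧ (∀ A, IsPl k A → tX k F ∈ A → y ∈ A) ∧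
      ∀ A ∈ S, y - co k F (c A) ∈ A.nonunits := sorry

/-- SR-D13b -/
theorem exists_good_generator (hunr : UnrLine k F) (A₁ A₂ : ValuationSubring F)
    (h₁ : IsPl k A₁) (h₂ : IsPl k A₂) (c₁ c₂ : k) (hc₁ : Over k A₁ c₁) (hc₂ : Over k A₂ c₂) :
    ∃ (n : ℕ) (f : k[X][X]) (y : F) (η₁ η₂ : Fin n → k) (i₁ i₂ : Fin n), f.Monic ∧
      f.natDegree = n ∧ Irreducible f ∧ (∀ B : k[X][X], eval₂ (pk k F) y B = 0 ↔ f ∣ B) ∧
      (∀ A, IsPl k A → tX k F ∈ A → y ∈ A) ∧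
      Function.Injective η₁ ∧ Function.Injective η₂ ∧
      f.map (Polynomial.evalRingHom c₁) = ∏ i, (X - C (η₁ i)) ∧
      f.map (Polynomial.evalRingHom c₂) = ∏ i, (X - C (η₂ i)) ∧
      (∀ A, IsPl k A → Over k A c₁ → (y - co k F (η₁ i₁) ∈ A.nonunits ↔ A = A₁)) ∧
      (∀ A, IsPl k A → Over k A c₂ → (y - co k F (η₂ i₂) ∈ A.nonunits ↔ A = A₂)) ∧
      (y - co k F (η₁ i₁)) / (tX k F - co k F c₁) ∈ A₁ ∧
      (y - co k F (η₂ i₂)) / (tX k F - co k F c₂) ∈ A₂ := sorry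

/-- SR-D13 -/
theorem exists_function {ℓ : ℕ} (hℓ0 : 0 < ℓ) (hℓ : (ℓ : k) ≠ 0) (hunr : UnrLine k F)
    (A₁ A₂ : ValuationSubring F) (h₁ : IsPl k A₁) (h₂ : IsPl k A₂) (c₁ c₂ : k)
    (hc₁ : Over k A₁ c₁) (hc₂ : Over k A₂ c₂) (hne : A₁ ≠ A₂) :
    ∃ g : F, g ≠ 0 ∧
      (∀ A, IsPl k A → tX k F ∈ A → A ≠ A₁ → A ≠ A₂ → ∃ x : F, x ≠ 0 ∧ Un A (g * x ^ ℓ)) ∧
      (∃ x : F, x ≠ 0 ∧ Un A₁ (g * x ^ ℓ * (tX k F - co k F c₁)⁻¹)) ∧
      (∃ x : F, x ≠ 0 ∧ Un A₂ (g * x ^ ℓ * (tX k F - co k F c₂))) := sorry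

end places

end Pool.Agent.Helper54.SR
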