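import Pool.Agent.Helper54.SR.Defs

/-!
# Specification, blocks L, C, T, P: local theory, embedding problems, twisting, pull-back
-/

set_option autoImplicit false
set_option linter.unusedVariables false
set_option linter.unusedSectionVars false
open scoped Pointwise
open Polynomial Pool.Agent.Helper54.PW

namespace Pool.Agent.Helper54.SR

section local'
variable {p : ℕ} [Fact p.Prime] {k L : Type} [Field k] [IsAlgClosed k] [CharP k p] [Field L]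
  [Algebra (RatFunc k) L] [FiniteDimensional (RatFunc k) L] [IsGalois (RatFunc k) L]

/-- SR-L0 -/
theorem exists_place_over (k L : Type) [Field k] [IsAlgClosed k] [Field L]
    [Algebra (RatFunc k) L] [FiniteDimensional (RatFunc k) L] (c : k) :
    ∃ A : ValuationSubring L, IsPl k A ∧ Over k A c := sorry

/-- SR-L1 -/
theorem exists_unif (A : ValuationSubring L) (hA : IsPl k A) : ∃ π : L, Unif A π := sorry

/-- SR-L2a -/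
theorem exists_theta (A : ValuationSubring L) (hA : IsPl k A) (π : L) (hπ : Unif A π) :
    ∃ θ : (L ≃ₐ[RatFunc k] L) → k, (∀ σ, σ • A = A → θ σ ≠ 0) ∧
      (∀ σ τ, σ • A = A → τ • A = A → θ (σ * τ) = θ σ * θ τ) ∧
      (∀ σ, σ • A = A → σ π / π - co k L (θ σ) ∈ A.nonunits) ∧
      ∀ σ, σ • A = A → ∀ (x : L) (n : ℤ), x ≠ 0 → Un A (x * π ^ n) →
        σ x / x - co k L (θ σ ^ (-n)) ∈ A.nonunits := sorry

/-- SR-L2b -/
theorem wild_pow (A : ValuationSubring L) (hA : IsPl k A) (π : L) (hπ : Unif A π)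
    (σ : L ≃ₐ[RatFunc k] L) (hσ : σ • A = A) (h1 : σ π / π - 1 ∈ A.nonunits) :
    ∃ a : ℕ, σ ^ p ^ a = 1 := sorry

/-- SR-L3 -/
theorem fixed_unit (A : ValuationSubring L) (hA : IsPl k A) (r : L) (hr : r ≠ 0)
    (hfix : ∀ σ : L ≃ₐ[RatFunc k] L, σ • A = A → σ r = r) :
    ∃ a : RatFunc k, a ≠ 0 ∧ Un A (r * algebraMap (RatFunc k) L a) := sorry

/-- SR-L4a -/
theorem basePar_finite (A : ValuationSubring L) (hA : IsPl k A) (c : k) (hc : Over k A c) :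
    BasePar k A (RatFunc.X - algebraMap k (RatFunc k) c) := sorry

/-- SR-L4b -/
theorem basePar_infty (A : ValuationSubring L) (hA : IsPl k A) (hX : tX k L ∉ A) :
    BasePar k A (RatFunc.X)⁻¹ := sorry

/-- SR-L4c -/
theorem exists_over (A : ValuationSubring L) (hA : IsPl k A) (hX : tX k L ∈ A) :
    ∃ c : k, Over k A c := sorry

/-- SR-L5a -/
theorem kummer_local {ℓ : ℕ} (hℓ : ℓ.Prime) (hℓp : ℓ ≠ p) (A : ValuationSubring L)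
    (hA : IsPl k A) (w : RatFunc k) (hw : BasePar k A w) (s : L)
    (hs : s ^ ℓ = algebraMap (RatFunc k) L w) (σ : L ≃ₐ[RatFunc k] L) (hσ : σ • A = A)
    (hσs : σ s = s) :
    ∃ τ υ : L ≃ₐ[RatFunc k] L, τ • A = A ∧ υ • A = A ∧ σ = τ ^ ℓ * υ ∧ ∃ a : ℕ, υ ^ p ^ a = 1 :=
  sorry

/-- SR-L5b -/
theorem kummer_nontriv {ℓ : ℕ} (hℓ : ℓ.Prime) (hℓp : ℓ ≠ p) (A : ValuationSubring L)
    (hA : IsPl k A) (w : RatFunc k) (hw : BasePar k A w) (s : L)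
    (hs : s ^ ℓ = algebraMap (RatFunc k) L w) (ζ : k) (hζ : IsPrimitiveRoot ζ ℓ) :
    ∃ τ : L ≃ₐ[RatFunc k] L, τ • A = A ∧ τ s = co k L ζ * s := sorry

/-- SR-L6 -/
theorem local_hom {ℓ : ℕ} (hℓ : ℓ.Prime) (hℓp : ℓ ≠ p) (A : ValuationSubring L)
    (hA : IsPl k A) (w : RatFunc k) (hw : BasePar k A w) (s : L)
    (hs : s ^ ℓ = algebraMap (RatFunc k) L w) (ζ : k) (hζ : IsPrimitiveRoot ζ ℓ)
    {G : Type} [Group G] (ρ : (L ≃ₐ[RatFunc k] L) →* G)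
    (hρ : ∀ σ : L ≃ₐ[RatFunc k] L, σ • A = A → ρ σ ^ ℓ = 1) :
    ∃ τ : L ≃ₐ[RatFunc k] L, τ • A = A ∧
      ∀ (σ : L ≃ₐ[RatFunc k] L) (e : ℕ), σ • A = A → σ s = co k L (ζ ^ e) * s →
        ρ σ = ρ τ ^ e := sorry

/-- SR-L7a -/
theorem unit_root (A : ValuationSubring L) (hA : IsPl k A) (σ : L ≃ₐ[RatFunc k] L)
    (hσ : σ • A = A) (w : L) (hw : Un A w) (c : k) (h : σ w = co k L c * w) : c = 1 := sorry

/-- SR-L7b -/
theorem loc_root {ℓ : ℕ} (hℓ : 0 < ℓ) (A : ValuationSubring L) (hA : IsPl k A)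
    (σ : L ≃ₐ[RatFunc k] L) (hσ : σ • A = A) (r x s : L) (hr : r ≠ 0) (hx : x ≠ 0) (hs : s ≠ 0)
    (hσr : σ (r ^ ℓ) = r ^ ℓ) (hσx : σ x = x) (a : k) (hσs : σ s = co k L a * s) (m : ℤ)
    (hu : Un A (r ^ ℓ * x ^ ℓ * (s ^ ℓ) ^ m)) : σ r = co k L (a ^ (-m)) * r := sorry

/-- SR-L8 -/
theorem finite_ramified (k L : Type) [Field k] [IsAlgClosed k] [Field L]
    [Algebra (RatFunc k) L] [FiniteDimensional (RatFunc k) L] [IsGalois (RatFunc k) L] :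
    {c : k | ∃ A : ValuationSubring L, IsPl k A ∧ Over k A c ∧
      ∃ σ : L ≃ₐ[RatFunc k] L, σ • A = A ∧ σ ≠ 1}.Finite := sorry

end local'

/-! ## block C: embedding problems -/

section embedding

/-- SR-C1a -/
theorem tsen_system {k : Type} [Field k] [IsAlgClosed k] {N m n : ℕ}
    (P : Fin m → MvPolynomial (Fin N) (RatFunc k)) (hdeg : ∀ i, (P i).totalDegree ≤ n)
    (h0 : ∀ i, MvPolynomial.eval 0 (P i) = 0) (hN : n * m < N) :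
    ∃ x : Fin N → RatFunc k, x ≠ 0 ∧ ∀ i, MvPolynomial.eval x (P i) = 0 := sorry

/-- SR-C1b -/
theorem norm_surjective {k E E₁ : Type} [Field k] [IsAlgClosed k] [Field E] [Field E₁]
    [Algebra (RatFunc k) E] [FiniteDimensional (RatFunc k) E] [Algebra E E₁]
    [FiniteDimensional E E₁] (a : E) : ∃ x : E₁, Algebra.norm E x = a := sorry

/-- SR-C2 -/
theorem exists_cyclic_norm {k E L : Type} [Field k] [IsAlgClosed k] [Field E] [Field L]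
    [Algebra (RatFunc k) E] [FiniteDimensional (RatFunc k) E] [Algebra E L]
    [FiniteDimensional E L] {Γ : Type} [Group Γ] [Finite Γ] (act : Γ →* (L ≃ₐ[E] L)) {ℓ : ℕ}
    (hℓ : ℓ.Prime) (N : Subgroup Γ) (hker : ∀ g, act g = 1 → g ∈ N) (τ : Γ)
    (hτ : ∀ g, g ∈ N ↔ τ * g * τ⁻¹ ∈ N) (hτℓ : τ ^ ℓ ∈ N) (hτN : τ ∉ N) (a : L)
    (ha : ∀ g ∈ N, act g a = a) (haτ : act τ a = a) :
    ∃ e : L, (∀ g ∈ N, act g e = e) ∧ ∏ i ∈ Finset.range ℓ, act (τ ^ i) e = a := sorry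

/-- SR-C3: Hilbert 90 for a finite group acting on a field -/
theorem hilbert90 {L Γ : Type} [Field L] [Group Γ] [Finite Γ] (act : Γ →* (L ≃+* L))
    (c : Γ → L) (hc0 : ∀ g, c g ≠ 0) (hc : ∀ g h, c (g * h) = c g * act g (c h))
    (hker : ∀ g, act g = 1 → c g = 1) : ∃ x : L, x ≠ 0 ∧ ∀ g, act g x = c g * x := sorry

/-- SR-C4a: extending a crossed homomorphism by one step -/
theorem extend_crossed {L Γ : Type} [Field L] [Group Γ] [Finite Γ] {ℓ : ℕ} (hℓ : ℓ.Prime)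
    (act : Γ →* (L ≃+* L)) (Z N N' : Subgroup Γ) (hZN : Z ≤ N)
    (hZc : ∀ z ∈ Z, ∀ g, z * g = g * z) (hker : ∀ g, act g = 1 ↔ g ∈ Z) (τ : Γ) (hτN : τ ∉ N)
    (hN' : N' = N ⊔ Subgroup.zpowers τ)
    (hτ : ∀ g, g ∈ N ↔ τ * g * τ⁻¹ ∈ N) (hτℓ : τ ^ ℓ ∈ N)
    (hnorm : ∀ a : L, (∀ g ∈ N, act g a = a) → act τ a = a →
      ∃ e : L, (∀ g ∈ N, act g e = e) ∧ ∏ i ∈ Finset.range ℓ, act (τ ^ i) e = a)
    (h90 : ∀ c : N → L, (∀ g, c g ≠ 0) → (∀ g h : N, c (g * h) = c g * act (g : Γ) (c h)) →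
      (∀ g : N, act (g : Γ) = 1 → c g = 1) → ∃ x : L, x ≠ 0 ∧ ∀ g : N, act (g : Γ) x = c g * x)
    (ζ : Γ → L) (hζ : ∀ g, ∀ z ∈ Z, act g (ζ z) = ζ z)
    (b : Γ → L) (hb0 : ∀ g ∈ N, b g ≠ 0) (hb : ∀ g ∈ N, ∀ h ∈ N, b (g * h) = b g * act g (b h))
    (hbZ : ∀ z ∈ Z, b z = ζ z) :
    ∃ b' : Γ → L, (∀ g ∈ N', b' g ≠ 0) ∧
      (∀ g ∈ N', ∀ h ∈ N', b' (g * h) = b' g * act g (b' h)) ∧ ∀ z ∈ Z, b' z = ζ z := sorry

/-- SR-C4b -/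
theorem exists_crossed {L Γ : Type} [Field L] [Group Γ] [Finite Γ] {ℓ : ℕ} (hℓ : ℓ.Prime)
    (hΓ : IsPGroup ℓ Γ) (act : Γ →* (L ≃+* L)) (Z : Subgroup Γ)
    (hZc : ∀ z ∈ Z, ∀ g, z * g = g * z) (hker : ∀ g, act g = 1 ↔ g ∈ Z)
    (hnorm : ∀ (N : Subgroup Γ) (τ : Γ), Z ≤ N → (∀ g, g ∈ N ↔ τ * g * τ⁻¹ ∈ N) → τ ^ ℓ ∈ N →
      τ ∉ N → ∀ a : L, (∀ g ∈ N, act g a = a) → act τ a = a →
      ∃ e : L, (∀ g ∈ N, act g e = e) ∧ ∏ i ∈ Finset.range ℓ, act (τ ^ i) e = a)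
    (ζ : Γ → L) (hζ : ∀ g, ∀ z ∈ Z, act g (ζ z) = ζ z) (hζ0 : ∀ z ∈ Z, ζ z ≠ 0)
    (hζm : ∀ z ∈ Z, ∀ w ∈ Z, ζ (z * w) = ζ z * ζ w) :
    ∃ b : Γ → L, (∀ g, b g ≠ 0) ∧ (∀ g h, b (g * h) = b g * act g (b h)) ∧
      ∀ z ∈ Z, b z = ζ z := sorry

/-- SR-C5a -/
theorem exists_roots {E L : Type} [Field E] [Field L] [Algebra E L] [FiniteDimensional E L]
    [IsGalois E L] {ℓ : ℕ} (hℓ : (ℓ : E) ≠ 0) (S : Finset L) :
    ∃ (L' : Type) (_ : Field L') (_ : Algebra E L') (_ : FiniteDimensional E L')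
      (_ : IsGalois E L') (j : L →ₐ[E] L'), ∀ x ∈ S, ∃ r : L', r ^ ℓ = j x := sorry

/-- SR-C5: a central kernel of order `ℓ` -/
theorem central_step {p : ℕ} [Fact p.Prime] {k E L : Type} [Field k] [IsAlgClosed k] [CharP k p]
    [Field E] [Field L] [Algebra (RatFunc k) E] [FiniteDimensional (RatFunc k) E] [Algebra E L]
    [FiniteDimensional E L] [IsGalois E L] {ℓ : ℕ} (hℓ : ℓ.Prime) (hℓp : ℓ ≠ p) {Γ : Type}
    [Group Γ] [Finite Γ] (hΓ : IsPGroup ℓ Γ) (act : Γ →* (L ≃ₐ[E] L))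
    (hact : Function.Surjective act) (hZc : ∀ z, act z = 1 → ∀ g, z * g = g * z)
    (hZ : Nat.card act.ker = ℓ) :
    ∃ (L' : Type) (_ : Field L') (_ : Algebra E L') (_ : FiniteDimensional E L')
      (_ : IsGalois E L') (j : L →ₐ[E] L') (ρ : (L' ≃ₐ[E] L') →* Γ),
      ∀ σ x, σ (j x) = j (act (ρ σ) x) := sorry

/-- SR-C6: embedding problems for `ℓ`-groups -/
theorem ell_lift {p : ℕ} [Fact p.Prime] {k : Type} [Field k] [IsAlgClosed k] [CharP k p]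
    {E : Type} [Field E] [Algebra (RatFunc k) E] [FiniteDimensional (RatFunc k) E]
    {ℓ : ℕ} (hℓ : ℓ.Prime) (hℓp : ℓ ≠ p) {Γ : Type} [Group Γ] [Finite Γ] (hΓ : IsPGroup ℓ Γ)
    {F : Type} [Field F] [Algebra E F] [FiniteDimensional E F] [IsGalois E F]
    (act : Γ →* (F ≃ₐ[E] F)) (hact : Function.Surjective act) :
    ∃ (L : Type) (_ : Field L) (_ : Algebra E L) (_ : FiniteDimensional E L)
      (_ : IsGalois E L) (j : F →ₐ[E] L) (ρ : (L ≃ₐ[E] L) →* Γ),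
      ∀ σ x, σ (j x) = j (act (ρ σ) x) := sorry

/-- SR-C7a -/
theorem gaschutz_hom {ℓ : ℕ} (hℓ : ℓ.Prime) {Δ G Q : Type} [Group Δ] [Finite Δ] [Group G]
    [Group Q] (V : Subgroup G) [V.Normal] (hVc : ∀ a b : V, a * b = b * a)
    (hVℓ : ∀ a : V, a ^ ℓ = 1) (π : G →* Q) (hπ : Function.Surjective π)
    (hker : ∀ g, π g = 1 ↔ g ∈ V) (q : Δ →* Q) (H : Subgroup Δ) (hH : ¬ ℓ ∣ H.index)
    (ρH : H →* G) (hρH : ∀ h : H, π (ρH h) = q h) :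
    ∃ ρ : Δ →* G, ∀ x, π (ρ x) = q x := sorry

/-- SR-C7 -/
theorem weak_lift {p : ℕ} [Fact p.Prime] {k : Type} [Field k] [IsAlgClosed k] [CharP k p]
    {ℓ : ℕ} (hℓ : ℓ.Prime) (hℓp : ℓ ≠ p) {F : Type} [Field F] [Algebra (RatFunc k) F]
    [FiniteDimensional (RatFunc k) F] [IsGalois (RatFunc k) F] {G : Type} [Group G] [Finite G]
    (V : Subgroup G) [V.Normal] (hVc : ∀ a b : V, a * b = b * a) (hVℓ : ∀ a : V, a ^ ℓ = 1)
    (act : G →* (F ≃ₐ[RatFunc k] F)) (hact : Function.Surjective act)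
    (hker : ∀ g, act g = 1 ↔ g ∈ V) :
    ∃ (L : Type) (_ : Field L) (_ : Algebra (RatFunc k) L) (_ : FiniteDimensional (RatFunc k) L)
      (_ : IsGalois (RatFunc k) L) (i : F →ₐ[RatFunc k] L) (ρ : (L ≃ₐ[RatFunc k] L) →* G),
      IsLift act i ρ := sorry

end embedding

/-! ## block T: twisting -/

section twist
variable {p : ℕ} [Fact p.Prime] {k : Type} [Field k] [IsAlgClosed k] [CharP k p]
  {F : Type} [Field F] [Algebra (RatFunc k) F] [FiniteDimensional (RatFunc k) F]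
  [IsGalois (RatFunc k) F] {L : Type} [Field L] [Algebra (RatFunc k) L]
  [FiniteDimensional (RatFunc k) L] [IsGalois (RatFunc k) L]
  {L' : Type} [Field L'] [Algebra (RatFunc k) L'] [FiniteDimensional (RatFunc k) L']
  [IsGalois (RatFunc k) L'] {G : Type} [Group G] [Finite G]

/-- SR-T0 -/
theorem exists_res (j : L →ₐ[RatFunc k] L') :
    ∃ res : (L' ≃ₐ[RatFunc k] L') →* (L ≃ₐ[RatFunc k] L), Function.Surjective res ∧
      ∀ σ x, σ (j x) = j (res σ x) := sorry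

/-- SR-T1a -/
theorem comap_isPl (j : L →ₐ[RatFunc k] L') (B : ValuationSubring L') (hB : IsPl k B) :
    IsPl k (B.comap (j : L →+* L')) ∧
      (∀ c, Over k (B.comap (j : L →+* L')) c ↔ Over k B c) ∧
      (tX k L ∈ B.comap (j : L →+* L') ↔ tX k L' ∈ B) ∧
      (∀ x : L, Un (B.comap (j : L →+* L')) x ↔ Un B (j x)) ∧
      ∀ (σ : L' ≃ₐ[RatFunc k] L') (τ : L ≃ₐ[RatFunc k] L), (∀ x, σ (j x) = j (τ x)) →
        σ • B = B → τ • B.comap (j : L →+* L') = B.comap (j : L →+* L') := sorry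

/-- SR-T1b -/
theorem exists_above (j : L →ₐ[RatFunc k] L') (A : ValuationSubring L) (hA : IsPl k A) :
    ∃ B : ValuationSubring L', IsPl k B ∧ B.comap (j : L →+* L') = A := sorry

/-- SR-T1c: decomposition groups surject -/
theorem exists_dec_lift (j : L →ₐ[RatFunc k] L') (B : ValuationSubring L') (hB : IsPl k B)
    (τ : L ≃ₐ[RatFunc k] L) (hτ : τ • B.comap (j : L →+* L') = B.comap (j : L →+* L')) :
    ∃ σ : L' ≃ₐ[RatFunc k] L', σ • B = B ∧ ∀ x, σ (j x) = j (τ x) := sorry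

/-- SR-T3 -/
theorem unrAt_of_one (ρ : (L ≃ₐ[RatFunc k] L) →* G) (c : k) (A : ValuationSubring L)
    (hA : IsPl k A) (hc : Over k A c) (h : ∀ σ : L ≃ₐ[RatFunc k] L, σ • A = A → ρ σ = 1) :
    UnrAt ρ c := sorry

/-- SR-T6 -/
theorem exists_Theta {ℓ : ℕ} (hℓ : ℓ.Prime) {Q : Type} [Group Q] (V : Subgroup G) [V.Normal]
    (hVc : ∀ a b : V, a * b = b * a) (hVℓ : ∀ a : V, a ^ ℓ = 1) (act : G →* Q)
    (hact : Function.Surjective act) (hker : ∀ g, act g = 1 ↔ g ∈ V) (v : G) (hv : v ∈ V)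
    [DecidableEq Q] :
    ∃ Θ : (Q → ZMod ℓ) → G, (∀ φ, Θ φ ∈ V) ∧ (∀ φ ψ, Θ (φ + ψ) = Θ φ * Θ ψ) ∧
      (∀ (a : G) (φ : Q → ZMod ℓ), Θ (fun q => φ ((act a)⁻¹ * q)) = a * Θ φ * a⁻¹) ∧
      ∀ (a : G) (e : ℕ), Θ (Pi.single (act a) (e : ZMod ℓ)) = a * v ^ e * a⁻¹ := sorry

/-- SR-T5 -/
theorem twist {ℓ : ℕ} (hℓ : ℓ.Prime) (hℓp : ℓ ≠ p) (act : G →* (F ≃ₐ[RatFunc k] F))
    (i : F →ₐ[RatFunc k] L) (ρ : (L ≃ₐ[RatFunc k] L) →* G) (hρ : IsLift act i ρ) (g : F)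
    (hg : g ≠ 0) (ζ : k) (hζ : IsPrimitiveRoot ζ ℓ)
    (Θ : ((F ≃ₐ[RatFunc k] F) → ZMod ℓ) → G) (hΘk : ∀ φ, act (Θ φ) = 1)
    (hΘadd : ∀ φ ψ, Θ (φ + ψ) = Θ φ * Θ ψ)
    (hΘeq : ∀ (a : G) (φ : (F ≃ₐ[RatFunc k] F) → ZMod ℓ),
      Θ (fun q => φ ((act a)⁻¹ * q)) = a * Θ φ * a⁻¹) :
    ∃ (L' : Type) (_ : Field L') (_ : Algebra (RatFunc k) L')
      (_ : FiniteDimensional (RatFunc k) L') (_ : IsGalois (RatFunc k) L')
      (j : L →ₐ[RatFunc k] L') (r : (F ≃ₐ[RatFunc k] F) → L')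
      (ρ' : (L' ≃ₐ[RatFunc k] L') →* G),
      (∀ q, r q ^ ℓ = j (i (q g))) ∧ IsLift act (j.comp i) ρ' ∧
      ∀ (σ : L' ≃ₐ[RatFunc k] L') (σ' : L ≃ₐ[RatFunc k] L)
        (φ : (F ≃ₐ[RatFunc k] F) → ZMod ℓ),
        (∀ x, σ (j x) = j (σ' x)) → (∀ x : F, σ (j (i x)) = j (i x)) →
        (∀ q, σ (r q) = co k L' (ζ ^ (φ q).val) * r q) → ρ' σ = Θ φ * ρ σ' := sorry

/-- SR-T7: removing the ramification over `c` -/
theorem remove_ram {ℓ : ℕ} (hℓ : ℓ.Prime) (hℓp : ℓ ≠ p) (V : Subgroup G) [V.Normal]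
    (hVc : ∀ a b : V, a * b = b * a) (hVℓ : ∀ a : V, a ^ ℓ = 1)
    (act : G →* (F ≃ₐ[RatFunc k] F)) (hact : Function.Surjective act)
    (hker : ∀ g, act g = 1 ↔ g ∈ V) (hunr : UnrLine k F) (i : F →ₐ[RatFunc k] L)
    (ρ : (L ≃ₐ[RatFunc k] L) →* G) (hρ : IsLift act i ρ) (c : k) (hc : c ≠ 0) :
    ∃ (L' : Type) (_ : Field L') (_ : Algebra (RatFunc k) L')
      (_ : FiniteDimensional (RatFunc k) L') (_ : IsGalois (RatFunc k) L')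
      (i' : F →ₐ[RatFunc k] L') (ρ' : (L' ≃ₐ[RatFunc k] L') →* G), IsLift act i' ρ' ∧
      UnrAt ρ' c ∧ ∀ c', c' ≠ 0 → UnrAt ρ c' → UnrAt ρ' c' := sorry

/-- SR-T8: making the solution surjective -/
theorem make_surjective {ℓ : ℕ} (hℓ : ℓ.Prime) (hℓp : ℓ ≠ p) (V : Subgroup G) [V.Normal]
    (hVc : ∀ a b : V, a * b = b * a) (hVℓ : ∀ a : V, a ^ ℓ = 1) (hVne : V ≠ ⊥)
    (hVmin : ∀ W : Subgroup G, W.Normal → W ≤ V → W = ⊥ ∨ W = V)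
    (P : Subgroup G) (hP : IsPGroup p P) (hgen : Subgroup.normalClosure (P : Set G) = ⊤)
    (act : G →* (F ≃ₐ[RatFunc k] F)) (hact : Function.Surjective act)
    (hker : ∀ g, act g = 1 ↔ g ∈ V) (hunr : UnrLine k F) (i : F →ₐ[RatFunc k] L)
    (ρ : (L ≃ₐ[RatFunc k] L) →* G) (hρ : IsLift act i ρ) (hur : ∀ c, c ≠ 0 → UnrAt ρ c) :
    ∃ (L' : Type) (_ : Field L') (_ : Algebra (RatFunc k) L')
      (_ : FiniteDimensional (RatFunc k) L') (_ : IsGalois (RatFunc k) L')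
      (i' : F →ₐ[RatFunc k] L') (ρ' : (L' ≃ₐ[RatFunc k] L') →* G), IsLift act i' ρ' ∧
      Function.Surjective ρ' ∧ ∀ c, c ≠ 0 → UnrAt ρ' c := sorry

/-- SR-T9 -/
theorem exists_good_lift {ℓ : ℕ} (hℓ : ℓ.Prime) (hℓp : ℓ ≠ p) (V : Subgroup G) [V.Normal]
    (hVc : ∀ a b : V, a * b = b * a) (hVℓ : ∀ a : V, a ^ ℓ = 1) (hVne : V ≠ ⊥)
    (hVmin : ∀ W : Subgroup G, W.Normal → W ≤ V → W = ⊥ ∨ W = V)
    (P : Subgroup G) (hP : IsPGroup p P) (hgen : Subgroup.normalClosure (P : Set G) = ⊤)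
    (act : G →* (F ≃ₐ[RatFunc k] F)) (hact : Function.Surjective act)
    (hker : ∀ g, act g = 1 ↔ g ∈ V) (hunr : UnrLine k F) :
    ∃ (L : Type) (_ : Field L) (_ : Algebra (RatFunc k) L)
      (_ : FiniteDimensional (RatFunc k) L) (_ : IsGalois (RatFunc k) L)
      (i : F →ₐ[RatFunc k] L) (ρ : (L ≃ₐ[RatFunc k] L) →* G) (s : L), IsLift act i ρ ∧
      Function.Surjective ρ ∧ (∀ c, c ≠ 0 → UnrAt ρ c) ∧ s ^ ℓ = tX k L := sorry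

end twist

/-! ## block P: pull-back by `s ^ ℓ = X` -/

section pullback

/-- SR-P1 -/
theorem realAct_of_kummer {k F : Type} [Field k] [IsAlgClosed k] [Field F]
    [Algebra (RatFunc k) F] [FiniteDimensional (RatFunc k) F] [IsGalois (RatFunc k) F]
    {G : Type} [Group G] (P : Subgroup G) {ℓ : ℕ} (hℓ : 0 < ℓ) (s : F) (hs : s ^ ℓ = tX k F)
    (ρ : (F ≃ₐ[RatFunc k] F) →* G) (h1 : ∀ g, ∃ σ : F ≃ₐ[RatFunc k] F, σ s = s ∧ ρ σ = g)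
    (h2 : ∀ A : ValuationSubring F, IsPl k A → s ∈ A →
      ∀ σ : F ≃ₐ[RatFunc k] F, σ s = s → σ • A = A → ρ σ = 1)
    (B : ValuationSubring F) (hB : IsPl k B) (hsB : s ∉ B)
    (h3 : ∀ g, g ∈ P ↔ ∃ σ : F ≃ₐ[RatFunc k] F, σ s = s ∧ σ • B = B ∧ ρ σ = g) :
    RealAct k P := sorry

/-- SR-P2a -/
theorem pow_eq_one_of_inertia {p ℓ : ℕ} [Fact p.Prime] {k : Type} [Field k] [CharP k p]
    {D G : Type} [Group D] [Finite D] [Group G] (ρ : D →* G) (V : Subgroup G)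
    (hVℓ : ∀ a ∈ V, a ^ ℓ = 1) (θ : D → k) (hθ0 : ∀ d, θ d ≠ 0)
    (hθm : ∀ d e, θ (d * e) = θ d * θ e) (hθ : ∀ d, θ d = 1 → ∃ a : ℕ, d ^ p ^ a = 1)
    (hD : ∀ d, ∃ a : ℕ, ρ d ^ p ^ a ∈ V) (τ υ : D) (hυ : ∃ a : ℕ, υ ^ p ^ a = 1) :
    ∃ a : ℕ, ρ (τ ^ ℓ * υ) ^ p ^ a = 1 := sorry

/-- SR-P2c -/
theorem conj_of_sup {p ℓ : ℕ} [Fact p.Prime] (hℓp : ¬ p ∣ ℓ) {G : Type} [Group G] [Finite G]
    (V : Subgroup G) [V.Normal] (hVℓ : ∀ a : V, a ^ ℓ = 1) (I P : Subgroup G)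
    (hI : IsPGroup p I) (hP : IsPGroup p P) (h : I ⊔ V = P ⊔ V) :
    ∃ x : G, ∀ g, g ∈ P ↔ x⁻¹ * g * x ∈ I := sorry

/-- SR-P4 -/
theorem exists_minimal_solvable {G : Type} [Group G] [Finite G] (R : Subgroup G) [R.Normal]
    [Group.IsSolvable R] (hR : R ≠ ⊥) :
    ∃ (ℓ : ℕ) (V : Subgroup G), ℓ.Prime ∧ V.Normal ∧ V ≤ R ∧ V ≠ ⊥ ∧
      (∀ W : Subgroup G, W.Normal → W ≤ V → W = ⊥ ∨ W = V) ∧
      (∀ a b : V, a * b = b * a) ∧ ∀ a : V, a ^ ℓ = 1 := sorry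

/-- SR-P5: the step for a minimal normal subgroup of order prime to `p` -/
theorem step_ell {p : ℕ} [Fact p.Prime] {k F : Type} [Field k] [IsAlgClosed k] [CharP k p]
    [Field F] [Algebra (RatFunc k) F] [FiniteDimensional (RatFunc k) F]
    [IsGalois (RatFunc k) F] {ℓ : ℕ} (hℓ : ℓ.Prime) (hℓp : ℓ ≠ p)
    {G : Type} [Group G] [Finite G] (V : Subgroup G) [V.Normal]
    (hVc : ∀ a b : V, a * b = b * a) (hVℓ : ∀ a : V, a ^ ℓ = 1) (hVne : V ≠ ⊥)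
    (hVmin : ∀ W : Subgroup G, W.Normal → W ≤ V → W = ⊥ ∨ W = V)
    (P : Subgroup G) (hP : IsPGroup p P) (hgen : Subgroup.normalClosure (P : Set G) = ⊤)
    (act : G →* (F ≃ₐ[RatFunc k] F))
    (hact : Function.Surjective act) (hker : ∀ g, act g = 1 ↔ g ∈ V) (hunr : UnrLine k F)
    (A : ValuationSubring F) (hA : IsPl k A) (hX : tX k F ∉ A)
    (hst : ∀ σ : F ≃ₐ[RatFunc k] F, σ • A = A ↔ ∃ g ∈ P, act g = σ) :
    RealAct k P := sorry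

end pullback

end Pool.Agent.Helper54.SR
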