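import Pool.Agent.Helper54.SR.Twist3

/-!
# The step for a minimal normal subgroup of order prime to `p`
-/

set_option autoImplicit false
set_option linter.unusedSectionVars false
set_option linter.unusedVariables false
open scoped Pointwise
open Polynomial Pool.Agent.Helper54.PW

namespace Pool.Agent.Helper54.SR

section
variable {p : ℕ} [Fact p.Prime] {k : Type} [Field k] [IsAlgClosed k] [CharP k p]
  {F : Type} [Field F] [Algebra (RatFunc k) F] [FiniteDimensional (RatFunc k) F]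
  [IsGalois (RatFunc k) F] {L : Type} [Field L] [Algebra (RatFunc k) L]
  [FiniteDimensional (RatFunc k) L] [IsGalois (RatFunc k) L]
  {G : Type} [Group G] [Finite G]

/-- the subgroup fixing an element -/
def fixer (s : L) : Subgroup (L ≃ₐ[RatFunc k] L) where
  carrier := {σ | σ s = s}
  mul_mem' := fun {a b} ha hb => by
    show (a * b) s = s
    rw [AlgEquiv.mul_apply]
    have hb' : b s = s := hb
    rw [hb']; exact ha
  one_mem' := rfl
  inv_mem' := fun {a} ha => by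
    show a⁻¹ s = s
    have ha' : a s = s := ha
    conv_lhs => rw [← ha']
    exact AlgEquiv.symm_apply_apply a s

theorem mem_fixer {s : L} {σ : L ≃ₐ[RatFunc k] L} : σ ∈ fixer s ↔ σ s = s := Iff.rfl

/-- values on a root of an element of the base -/
theorem exists_exp {ℓ : ℕ} (hℓ : ℓ.Prime) (ζ : k) (hζ : IsPrimitiveRoot ζ ℓ) (s : L) (w : RatFunc k)
    (hs0 : s ≠ 0) (hs : s ^ ℓ = algebraMap (RatFunc k) L w) (σ : L ≃ₐ[RatFunc k] L) :
    ∃ e < ℓ, σ s = co k L (ζ ^ e) * s := by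
  have h2 : (σ s) ^ ℓ = s ^ ℓ := by
    rw [← map_pow, hs, σ.commutes]
  have hζ' : IsPrimitiveRoot (co k L ζ) ℓ :=
    hζ.map_of_injective (f := (algebraMap (RatFunc k) L).comp (algebraMap k (RatFunc k)))
      co_injective
  have h3 : (σ s / s) ^ ℓ = 1 := by
    rw [div_pow, h2, div_self (pow_ne_zero _ hs0)]
  have : NeZero ℓ := ⟨hℓ.pos.ne'⟩
  obtain ⟨e, he, hee⟩ := hζ'.eq_pow_of_pow_eq_one h3
  refine ⟨e, he, ?_⟩
  rw [co_pow, hee, div_mul_cancel₀ _ hs0]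

theorem pow_fix {ℓ : ℕ} (ζ : k) (s : L) (σ : L ≃ₐ[RatFunc k] L) (a : k)
    (h : σ s = co k L a * s) (n : ℕ) : (σ ^ n) s = co k L (a ^ n) * s := by
  induction n with
  | zero => rw [pow_zero, pow_zero, co_one, one_mul]; rfl
  | succ n ih =>
    rw [pow_succ', AlgEquiv.mul_apply, ih, map_mul, co_fixed, h, ← mul_assoc, ← co_mul, pow_succ]

theorem fixer_normal {ℓ : ℕ} (hℓ : ℓ.Prime) (ζ : k) (hζ : IsPrimitiveRoot ζ ℓ) (s : L)
    (w : RatFunc k) (hs0 : s ≠ 0) (hs : s ^ ℓ = algebraMap (RatFunc k) L w) :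
    (fixer (k := k) s).Normal := by
  constructor
  intro σ hσ τ
  rw [mem_fixer] at hσ ⊢
  obtain ⟨e, he, hee⟩ := exists_exp hℓ ζ hζ s w hs0 hs τ⁻¹
  rw [AlgEquiv.mul_apply, AlgEquiv.mul_apply, hee, map_mul, co_fixed, hσ, ← hee]
  exact AlgEquiv.apply_symm_apply τ s

theorem pow_mem_fixer {ℓ : ℕ} (hℓ : ℓ.Prime) (ζ : k) (hζ : IsPrimitiveRoot ζ ℓ) (s : L)
    (w : RatFunc k) (hs0 : s ≠ 0) (hs : s ^ ℓ = algebraMap (RatFunc k) L w)
    (σ : L ≃ₐ[RatFunc k] L) : σ ^ ℓ ∈ fixer s := by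
  obtain ⟨e, he, hee⟩ := exists_exp hℓ ζ hζ s w hs0 hs σ
  rw [mem_fixer, pow_fix (ℓ := ℓ) ζ s σ (ζ ^ e) hee ℓ, ← pow_mul, mul_comm e ℓ, pow_mul, hζ.pow_eq_one,
    one_pow, co_one, one_mul]

theorem pow_crt {ℓ : ℕ} (hℓ : ℓ.Prime) (hℓp : ℓ ≠ p) (a : ℕ) :
    ∃ N : ℕ, ℓ ∣ N ∧ N % (p ^ a) = 1 % (p ^ a) := by
  have hcop : Nat.Coprime ℓ (p ^ a) :=
    Nat.Coprime.pow_right a ((Nat.coprime_primes hℓ (Fact.out : p.Prime)).2 hℓp)
  obtain ⟨N, h1, h2⟩ := Nat.chineseRemainder hcop 0 1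
  exact ⟨N, (Nat.modEq_zero_iff_dvd).1 h1, h2⟩

theorem step_ell {ℓ : ℕ} (hℓ : ℓ.Prime) (hℓp : ℓ ≠ p)
    (V : Subgroup G) [V.Normal]
    (hVc : ∀ a b : V, a * b = b * a) (hVℓ : ∀ a : V, a ^ ℓ = 1) (hVne : V ≠ ⊥)
    (hVmin : ∀ W : Subgroup G, W.Normal → W ≤ V → W = ⊥ ∨ W = V)
    (P : Subgroup G) (hP : IsPGroup p P) (hgen : Subgroup.normalClosure (P : Set G) = ⊤)
    (act : G →* (F ≃ₐ[RatFunc k] F))
    (hact : Function.Surjective act) (hker : ∀ g, act g = 1 ↔ g ∈ V) (hunr : UnrLine k F)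
    (A : ValuationSubring F) (hA : IsPl k A) (hX : tX k F ∉ A)
    (hst : ∀ σ : F ≃ₐ[RatFunc k] F, σ • A = A ↔ ∃ g ∈ P, act g = σ) :
    RealAct k P := by
  classical
  obtain ⟨L, _, _, _, _, i, ρ, s, hρ, hsurj, hunrL, hs⟩ := exists_good_lift (p := p) hℓ hℓp V hVc hVℓ
    hVne hVmin P hP hgen act hact hker hunr
  obtain ⟨ζ, hζ⟩ := exists_prim (k := k) (p := p) trivial hℓ hℓp
  obtain ⟨B₀, hB₀, hBA⟩ := exists_above i A hA
  obtain ⟨c1, c2, c3, c4, c5⟩ := comap_isPl i B₀ hB₀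
  have hXB₀ : tX k L ∉ B₀ := by
    rw [← c3, hBA]; exact hX
  have htX0 : tX k L ≠ 0 := by
    intro h
    apply hXB₀
    rw [h]; exact B₀.zero_mem
  have hs0 : s ≠ 0 := by
    rintro rfl
    rw [zero_pow hℓ.pos.ne'] at hs
    exact htX0 hs.symm
  have hVpow : ∀ a ∈ V, a ^ ℓ = 1 := fun a ha => congrArg Subtype.val (hVℓ ⟨a, ha⟩)
  have hfn : (fixer (k := k) s).Normal := fixer_normal hℓ ζ hζ s RatFunc.X hs0 hs
  -- values of ρ on the decomposition group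
  have hDact : ∀ σ : L ≃ₐ[RatFunc k] L, σ • B₀ = B₀ → ∃ g ∈ P, act g = act (ρ σ) := by
    intro σ hσ
    rw [← hst]
    have := c5 σ (act (ρ σ)) (fun x => hρ σ x) hσ
    rw [hBA] at this
    exact this
  have hPpow : ∀ g ∈ P, ∃ a : ℕ, g ^ p ^ a = 1 := by
    intro g hg
    obtain ⟨n, hn⟩ := hP ⟨g, hg⟩
    exact ⟨n, congrArg Subtype.val hn⟩
  let D : Subgroup (L ≃ₐ[RatFunc k] L) := MulAction.stabilizer _ B₀
  have hD : ∀ σ, σ ∈ D ↔ σ • B₀ = B₀ := fun σ => MulAction.mem_stabilizer_iff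
  let I : Subgroup G := (D ⊓ fixer s).map ρ
  -- I is a p-group
  have hIp : IsPGroup p I := by
    rintro ⟨x, σ, ⟨hσD, hσs⟩, rfl⟩
    obtain ⟨π, hπ⟩ := exists_unif B₀ hB₀
    obtain ⟨θ, hθ0, hθm, hθπ, -⟩ := exists_theta B₀ hB₀ π hπ
    have hw := basePar_infty B₀ hB₀ hXB₀
    obtain ⟨τ, υ, hτ, hυ, hσ, hυp⟩ := kummer_local (p := p) hℓ hℓp B₀ hB₀ _ hw s⁻¹
      (by rw [inv_pow, hs, map_inv₀]; rfl) σ ((hD σ).1 hσD)
      (by rw [map_inv₀]; rw [mem_fixer.1 hσs])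
    have h := pow_eq_one_of_inertia (p := p) (ℓ := ℓ) (k := k) (ρ.comp D.subtype) V hVpow
      (fun d => θ (d : L ≃ₐ[RatFunc k] L)) (fun d => hθ0 _ ((hD _).1 d.2))
      (fun d e => hθm _ _ ((hD _).1 d.2) ((hD _).1 e.2))
      (fun d hd => by
        obtain ⟨a, ha⟩ := wild_pow (p := p) B₀ hB₀ π hπ d ((hD _).1 d.2) (by
          have := hθπ d ((hD _).1 d.2)
          rw [hd, co_one] at this
          exact this)
        exact ⟨a, Subtype.ext ha⟩)
      (fun d => by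
        obtain ⟨g, hg, hgd⟩ := hDact d ((hD _).1 d.2)
        obtain ⟨a, ha⟩ := hPpow g hg
        refine ⟨a, ?_⟩
        rw [← hker, map_pow]
        show act (ρ d) ^ p ^ a = 1
        rw [← hgd, ← map_pow, ha, map_one])
      ⟨τ, (hD _).2 hτ⟩ ⟨υ, (hD _).2 hυ⟩ (by
        obtain ⟨a, ha⟩ := hυp
        exact ⟨a, Subtype.ext ha⟩)
    obtain ⟨a, ha⟩ := h
    refine ⟨a, Subtype.ext ?_⟩
    rw [Subgroup.coe_pow, Subgroup.coe_one]
    have e : ρ σ = (ρ.comp D.subtype) (⟨τ, (hD _).2 hτ⟩ ^ ℓ * ⟨υ, (hD _).2 hυ⟩) := by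
      rw [hσ]; rfl
    show ρ σ ^ p ^ a = 1
    rw [e]; exact ha
  have hIV : I ⊔ V = P ⊔ V := by
    apply le_antisymm
    · apply sup_le _ le_sup_right
      rintro _ ⟨σ, ⟨hσD, -⟩, rfl⟩
      obtain ⟨g, hg, hgd⟩ := hDact σ ((hD _).1 hσD)
      have h1 : g⁻¹ * ρ σ ∈ V := by
        rw [← hker, map_mul, map_inv, hgd, inv_mul_cancel]
      have h2 : ρ σ = g * (g⁻¹ * ρ σ) := by group
      rw [h2]
      exact Subgroup.mul_mem _ (Subgroup.mem_sup_left hg) (Subgroup.mem_sup_right h1)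
    · apply sup_le _ le_sup_right
      intro g hg
      have h1 : act g • B₀.comap (i : F →+* L) = B₀.comap (i : F →+* L) := by
        rw [hBA, hst]; exact ⟨g, hg, rfl⟩
      obtain ⟨σ, hσ, hσi⟩ := exists_dec_lift i B₀ hB₀ (act g) h1
      obtain ⟨a, ha⟩ := hPpow g hg
      obtain ⟨N, hN1, hN2⟩ := pow_crt (p := p) hℓ hℓp a
      have hgN : g ^ N = g := by
        have h1 := pow_mod_orderOf g N
        have h3 : N ≡ 1 [MOD orderOf g] :=
          Nat.ModEq.of_dvd (orderOf_dvd_of_pow_eq_one ha) hN2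
        have h4 := (pow_eq_pow_iff_modEq (x := g)).2 h3
        rw [h4, pow_one]
      have hact' : act (ρ σ) = act g := by
        refine AlgEquiv.ext fun x => (i : F →+* L).injective ?_
        show i (act (ρ σ) x) = i (act g x)
        rw [← hρ, hσi]
      have hmem : ρ (σ ^ N) ∈ I := by
        refine ⟨σ ^ N, ⟨D.pow_mem ((hD σ).2 hσ) N, ?_⟩, rfl⟩
        obtain ⟨m, rfl⟩ := hN1
        rw [pow_mul]
        exact (fixer s).pow_mem (pow_mem_fixer hℓ ζ hζ s RatFunc.X hs0 hs σ) m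
      have h2 : (ρ (σ ^ N))⁻¹ * g ∈ V := by
        rw [← hker, map_mul, map_inv, map_pow, map_pow, hact', ← map_pow, hgN, inv_mul_cancel]
      have h3 : g = ρ (σ ^ N) * ((ρ (σ ^ N))⁻¹ * g) := by group
      rw [h3]
      exact Subgroup.mul_mem _ (Subgroup.mem_sup_left hmem) (Subgroup.mem_sup_right h2)
  obtain ⟨x, hx⟩ := conj_of_sup (p := p) (ℓ := ℓ) (by
    intro h
    exact hℓp ((Nat.prime_dvd_prime_iff_eq (Fact.out : p.Prime) hℓ).1 h).symm) V hVℓ I P hIp hP hIV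
  obtain ⟨τ, rfl⟩ := hsurj x
  have hpl : IsPl k (τ • B₀) := isPl_smul τ hB₀
  refine realAct_of_kummer P hℓ.pos s hs ρ ?_ ?_ (τ • B₀) hpl ?_ ?_
  · -- surjectivity on the fixer of s
    have hn : ((fixer (k := k) s).map ρ).Normal := Subgroup.Normal.map hfn ρ hsurj
    have htop : (fixer (k := k) s).map ρ = ⊤ := by
      rw [eq_top_iff, ← hgen]
      apply Subgroup.normalClosure_le_normal
      intro g hg
      obtain ⟨σ, hσ⟩ := hsurj g
      obtain ⟨a, ha⟩ := hPpow g hg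
      obtain ⟨N, hN1, hN2⟩ := pow_crt (p := p) hℓ hℓp a
      have hgN : g ^ N = g := by
        have h3 : N ≡ 1 [MOD orderOf g] :=
          Nat.ModEq.of_dvd (orderOf_dvd_of_pow_eq_one ha) hN2
        have h4 := (pow_eq_pow_iff_modEq (x := g)).2 h3
        rw [h4, pow_one]
      refine ⟨σ ^ N, ?_, by rw [map_pow, hσ, hgN]⟩
      obtain ⟨m, rfl⟩ := hN1
      rw [pow_mul]
      exact (fixer s).pow_mem (pow_mem_fixer hℓ ζ hζ s RatFunc.X hs0 hs σ) m
    intro g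
    have : g ∈ (fixer (k := k) s).map ρ := by rw [htop]; trivial
    obtain ⟨σ, h1, h2⟩ := this
    exact ⟨σ, h1, h2⟩
  · intro A' hA' hsA' σ hσs hσA'
    have htXA' : tX k L ∈ A' := by
      rw [← hs]; exact pow_mem hsA' ℓ
    obtain ⟨c, hc⟩ := exists_over A' hA' htXA'
    by_cases hc0 : c = 0
    · subst hc0
      obtain ⟨τ', υ, hτ', hυ, hσ', hυp⟩ := kummer_local (p := p) hℓ hℓp A' hA' _
        (basePar_finite A' hA' 0 hc) s (by rw [hs, map_zero, sub_zero]; rfl) σ hσA' hσs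
      have hmemV : ∀ σ' : L ≃ₐ[RatFunc k] L, σ' • A' = A' → ρ σ' ^ ℓ = 1 := by
        intro σ' h'
        apply hVpow
        rw [← hker]
        exact fix_F act hunr i ρ hρ A' hA' htXA' σ' h'
      have h1 : ρ υ = 1 := by
        obtain ⟨a, ha⟩ := hυp
        have h2 : ρ υ ^ p ^ a = 1 := by rw [← map_pow, ha, map_one]
        have hcop : Nat.Coprime ℓ (p ^ a) :=
          Nat.Coprime.pow_right a ((Nat.coprime_primes hℓ (Fact.out : p.Prime)).2 hℓp)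
        have h3 := orderOf_dvd_of_pow_eq_one h2
        have h4 := orderOf_dvd_of_pow_eq_one (hmemV υ hυ)
        exact orderOf_eq_one_iff.1 (Nat.eq_one_of_dvd_coprimes hcop h4 h3)
      rw [hσ', map_mul, map_pow, hmemV τ' hτ', h1, one_mul]
    · exact hunrL c hc0 A' hA' hc σ hσA'
  · intro h
    apply hXB₀
    rw [← tX_mem_smul_iff τ, ← hs]
    exact pow_mem h ℓ
  · intro g
    rw [hx]
    constructor
    · rintro ⟨σ, ⟨hσD, hσs⟩, hσ⟩
      refine ⟨τ * σ * τ⁻¹, ?_, ?_, ?_⟩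
      · exact hfn.conj_mem σ hσs τ
      · rw [mul_smul, mul_smul, inv_smul_smul, (hD σ).1 hσD]
      · rw [map_mul, map_mul, hσ, map_inv]; group
    · rintro ⟨σ, hσs, hσB, rfl⟩
      refine ⟨τ⁻¹ * σ * τ, ⟨?_, ?_⟩, ?_⟩
      · refine (hD _).2 ?_
        rw [mul_smul, mul_smul, hσB, inv_smul_smul]
      · have := hfn.conj_mem σ hσs τ⁻¹
        rw [inv_inv] at this
        exact this
      · rw [map_mul, map_mul, map_inv]

end

end Pool.Agent.Helper54.SR
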