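import Pool.Agent.Helper54.SR.All
import Pool.Agent.Helper6.SR.EllLiftMain
import Pool.Agent.Helper71.SR.WeakLiftMain

/-!
# Solution of embedding problems with abelian kernel of exponent `ℓ` over `k(X)`
-/

set_option autoImplicit false
set_option linter.unusedVariables false
open scoped Pointwise
open Polynomial Pool.Agent.Helper54.PW

namespace Pool.Agent.Helper54.SR

theorem weak_lift' {p : ℕ} [Fact p.Prime] {k : Type} [Field k] [IsAlgClosed k] [CharP k p]
    {ℓ : ℕ} (hℓ : ℓ.Prime) (hℓp : ℓ ≠ p) {F : Type} [Field F] [Algebra (RatFunc k) F]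
    [FiniteDimensional (RatFunc k) F] [IsGalois (RatFunc k) F] {G : Type} [Group G] [Finite G]
    (V : Subgroup G) [V.Normal] (hVc : ∀ a b : V, a * b = b * a) (hVℓ : ∀ a : V, a ^ ℓ = 1)
    (act : G →* (F ≃ₐ[RatFunc k] F)) (hact : Function.Surjective act)
    (hker : ∀ g, act g = 1 ↔ g ∈ V) :
    ∃ (L : Type) (_ : Field L) (_ : Algebra (RatFunc k) L) (_ : FiniteDimensional (RatFunc k) L)
      (_ : IsGalois (RatFunc k) L) (i : F →ₐ[RatFunc k] L) (ρ : (L ≃ₐ[RatFunc k] L) →* G),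
      IsLift act i ρ := by
  obtain ⟨L, a1, a2, a3, a4, i, ρ, h⟩ := wl_main hℓ V hVℓ act hact hker
    (fun E _ _ _ _ _ _ Γ _ _ hΓ act' hact' => h6_ell_lift_of hℓ
      (fun hΓ act hact hZc hZ => central_step (k := k) (p := p) hℓ hℓp hΓ act hact hZc hZ)
      hΓ act' hact')
    (fun q H hH ρH hρH => gaschutz_hom hℓ V hVc hVℓ act hact hker q H hH ρH hρH)
  exact ⟨L, a1, a2, a3, a4, i, ρ, h⟩

end Pool.Agent.Helper54.SR
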