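import Pool.Agent.Helper54.SR.Basic
import Pool.Agent.Helper54.SR.Weak

/-!
# Inflation, and the Kummer characters of the roots of the conjugates of a function
-/

set_option autoImplicit false
set_option linter.unusedSectionVars false
open scoped Pointwise
open Polynomial Pool.Agent.Helper54.PW

namespace Pool.Agent.Helper54.SR

section
variable {p : ℕ} [Fact p.Prime] {k : Type} [Field k] [IsAlgClosed k] [CharP k p]
  {F : Type} [Field F] [Algebra (RatFunc k) F] [FiniteDimensional (RatFunc k) F]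
  [IsGalois (RatFunc k) F] {L : Type} [Field L] [Algebra (RatFunc k) L]
  [FiniteDimensional (RatFunc k) L] [IsGalois (RatFunc k) L]
  {L' : Type} [Field L'] [Algebra (RatFunc k) L'] [FiniteDimensional (RatFunc k) L']
  [IsGalois (RatFunc k) L'] {G : Type} [Group G] [Finite G]

/-- the place below -/
theorem over_comap (j : L →ₐ[RatFunc k] L') {B : ValuationSubring L'} (hB : IsPl k B) {c : k}
    (h : Over k B c) : Over k (B.comap (j : L →+* L')) c :=
  ((comap_isPl j B hB).2.1 c).2 h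

/-- inflation of a solution -/
theorem inflate (act : G →* (F ≃ₐ[RatFunc k] F)) (i : F →ₐ[RatFunc k] L)
    (ρ : (L ≃ₐ[RatFunc k] L) →* G) (hρ : IsLift act i ρ) (j : L →ₐ[RatFunc k] L') :
    ∃ ρ' : (L' ≃ₐ[RatFunc k] L') →* G, IsLift act (j.comp i) ρ' ∧
      (∀ c, UnrAt ρ c → UnrAt ρ' c) ∧ ρ'.range = ρ.range ∧
      ∀ (σ : L' ≃ₐ[RatFunc k] L') (τ : L ≃ₐ[RatFunc k] L), (∀ x, σ (j x) = j (τ x)) →
        ρ' σ = ρ τ := by
  obtain ⟨res, hsurj, hres⟩ := exists_res (k := k) j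
  refine ⟨ρ.comp res, ?_, ?_, ?_, ?_⟩
  · intro σ x
    show σ (j (i x)) = j (i (act (ρ (res σ)) x))
    rw [hres, hρ]
  · intro c hc B hB hBc σ hσ
    obtain ⟨h1, h2, h3, h4, h5⟩ := comap_isPl j B hB
    exact hc _ h1 ((h2 c).2 hBc) (res σ) (h5 σ (res σ) (hres σ) hσ)
  · rw [MonoidHom.range_comp, MonoidHom.range_eq_top.2 hsurj, ← MonoidHom.range_eq_map]
  · intro σ τ h
    show ρ (res σ) = ρ τ
    congr 1
    refine AlgEquiv.ext fun x => (j : L →+* L').injective ?_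
    show j (res σ x) = j (τ x)
    rw [← hres, h]

/-- enlarging `L` so that an element of the base field has an `ℓ`-th root -/
theorem enlarge {ℓ : ℕ} (hℓ : ℓ.Prime) (hℓp : ℓ ≠ p) (act : G →* (F ≃ₐ[RatFunc k] F))
    (i : F →ₐ[RatFunc k] L)
    (ρ : (L ≃ₐ[RatFunc k] L) →* G) (hρ : IsLift act i ρ) (w : RatFunc k) :
    ∃ (L' : Type) (_ : Field L') (_ : Algebra (RatFunc k) L')
      (_ : FiniteDimensional (RatFunc k) L') (_ : IsGalois (RatFunc k) L')
      (i' : F →ₐ[RatFunc k] L') (ρ' : (L' ≃ₐ[RatFunc k] L') →* G) (s : L'), IsLift act i' ρ' ∧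
      (∀ c, UnrAt ρ c → UnrAt ρ' c) ∧ ρ'.range = ρ.range ∧
      s ^ ℓ = algebraMap (RatFunc k) L' w := by
  have hℓ0 : (ℓ : RatFunc k) ≠ 0 := by
    have h1 : (ℓ : k) ≠ 0 := by
      intro h
      rw [CharP.cast_eq_zero_iff k p] at h
      exact hℓp ((Nat.prime_dvd_prime_iff_eq (Fact.out : p.Prime) hℓ).1 h).symm
    intro h
    apply h1
    apply (algebraMap k (RatFunc k)).injective
    rw [map_natCast, map_zero]
    exact h
  obtain ⟨L', iF, iA, hfd, hgal, j, hj⟩ := exists_roots (E := RatFunc k) (L := L) hℓ0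
    {algebraMap (RatFunc k) L w}
  obtain ⟨s, hs⟩ := hj _ (Finset.mem_singleton_self _)
  obtain ⟨ρ', h1, h2, h3, h4⟩ := inflate act i ρ hρ j
  exact ⟨L', iF, iA, hfd, hgal, j.comp i, ρ', s, h1, h2, h3, by rw [hs, j.commutes]⟩

/-- an automorphism in the decomposition group of a place over the line fixes `F` -/
theorem fix_F (act : G →* (F ≃ₐ[RatFunc k] F)) (hunr : UnrLine k F)
    (i : F →ₐ[RatFunc k] L) (ρ : (L ≃ₐ[RatFunc k] L) →* G) (hρ : IsLift act i ρ)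
    (B : ValuationSubring L) (hB : IsPl k B) (hX : tX k L ∈ B) (σ : L ≃ₐ[RatFunc k] L)
    (hσ : σ • B = B) : act (ρ σ) = 1 := by
  obtain ⟨h1, h2, h3, h4, h5⟩ := comap_isPl i B hB
  exact hunr _ h1 (h3.2 hX) _ (h5 σ (act (ρ σ)) (fun x => hρ σ x) hσ)

theorem ell_ne_zero {ℓ : ℕ} (hℓ : ℓ.Prime) (hℓp : ℓ ≠ p) : (ℓ : k) ≠ 0 := by
  intro h
  rw [CharP.cast_eq_zero_iff k p] at h
  exact hℓp ((Nat.prime_dvd_prime_iff_eq (Fact.out : p.Prime) hℓ).1 h).symm

/-- the character on a root of `q g`, place not over the support of `g` -/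
theorem char_trivial {ℓ : ℕ} (hℓ : 0 < ℓ) (i : F →ₐ[RatFunc k] L)
    (B : ValuationSubring L) (hB : IsPl k B) (σ : L ≃ₐ[RatFunc k] L)
    (hσ : σ • B = B) (hσF : ∀ x : F, σ (i x) = i x) (g : F) (hg : g ≠ 0)
    (q : F ≃ₐ[RatFunc k] F) (r : L) (hr : r ^ ℓ = i (q g)) (x : F) (hx : x ≠ 0)
    (hu : Un (q⁻¹ • B.comap (i : F →+* L)) (g * x ^ ℓ)) : σ r = r := by
  have hr0 : r ≠ 0 := by
    rintro rfl
    rw [zero_pow hℓ.ne'] at hr
    have : i (q g) = i 0 := by rw [← hr, map_zero]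
    have h2 := (i : F →+* L).injective this
    rw [map_eq_zero_iff _ q.injective] at h2
    exact hg h2
  rw [un_smul_iff'] at hu
  obtain ⟨h1, h2, h3, h4, h5⟩ := comap_isPl i B hB
  rw [h4] at hu
  have hix : i (q x) ≠ 0 := by
    intro h
    have : i (q x) = i 0 := by rw [h, map_zero]
    have h2 := (i : F →+* L).injective this
    rw [map_eq_zero_iff _ q.injective] at h2
    exact hx h2
  have h := loc_root (k := k) hℓ B hB σ hσ r (i (q x)) 1 hr0 hix one_ne_zero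
    (by rw [hr]; exact hσF _) (hσF _) 1 (by rw [map_one, co_one, one_mul]) 0
    (by rw [zpow_zero, mul_one, hr, ← map_pow, ← map_mul, ← map_pow, ← map_mul]; exact hu)
  rw [h, neg_zero, zpow_zero, co_one, one_mul]

/-- the character on a root of `q g`, place over the support of `g` -/
theorem char_eq {ℓ : ℕ} (hℓ : 0 < ℓ) (i : F →ₐ[RatFunc k] L)
    (B : ValuationSubring L) (hB : IsPl k B) (σ : L ≃ₐ[RatFunc k] L)
    (hσ : σ • B = B) (hσF : ∀ x : F, σ (i x) = i x) (g : F) (hg : g ≠ 0)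
    (q : F ≃ₐ[RatFunc k] F) (r : L) (hr : r ^ ℓ = i (q g)) (x : F) (hx : x ≠ 0) (c : k) (m : ℤ)
    (hu : Un (q⁻¹ • B.comap (i : F →+* L)) (g * x ^ ℓ * (tX k F - co k F c) ^ m))
    (s : L) (hs0 : s ≠ 0)
    (hs : s ^ ℓ = tX k L - co k L c) (a : k) (ha : σ s = co k L a * s) :
    σ r = co k L (a ^ (-m)) * r := by
  have hr0 : r ≠ 0 := by
    rintro rfl
    rw [zero_pow hℓ.ne'] at hr
    have : i (q g) = i 0 := by rw [← hr, map_zero]
    have h2 := (i : F →+* L).injective this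
    rw [map_eq_zero_iff _ q.injective] at h2
    exact hg h2
  rw [un_smul_iff'] at hu
  obtain ⟨h1, h2, h3, h4, h5⟩ := comap_isPl i B hB
  rw [h4] at hu
  have hix : i (q x) ≠ 0 := by
    intro h
    have : i (q x) = i 0 := by rw [h, map_zero]
    have h2 := (i : F →+* L).injective this
    rw [map_eq_zero_iff _ q.injective] at h2
    exact hx h2
  refine loc_root (k := k) hℓ B hB σ hσ r (i (q x)) s hr0 hix hs0
    (by rw [hr]; exact hσF _) (hσF _) a ha m ?_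
  have e : r ^ ℓ * i (q x) ^ ℓ * (s ^ ℓ) ^ m =
      i (q (g * x ^ ℓ * (tX k F - co k F c) ^ m)) := by
    rw [hr, hs, map_mul, map_mul, map_mul, map_mul, map_pow, map_pow, map_zpow₀, map_zpow₀,
      map_sub, map_sub, tX_fixed, co_fixed, tX_map, co_map]
  rw [e]
  exact hu

/-- a twist is unramified where the function is locally an `ℓ`-th power and the solution is
unramified -/
theorem twist_unr {ℓ : ℕ} (hℓ : ℓ.Prime) (act : G →* (F ≃ₐ[RatFunc k] F)) (hunr : UnrLine k F)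
    (i : F →ₐ[RatFunc k] L) (ρ : (L ≃ₐ[RatFunc k] L) →* G) (hρ : IsLift act i ρ) (g : F)
    (hg : g ≠ 0) (ζ : k) (Θ : ((F ≃ₐ[RatFunc k] F) → ZMod ℓ) → G) (hΘ0 : Θ 0 = 1)
    (j : L →ₐ[RatFunc k] L') (r : (F ≃ₐ[RatFunc k] F) → L')
    (ρ' : (L' ≃ₐ[RatFunc k] L') →* G) (hr : ∀ q, r q ^ ℓ = j (i (q g)))
    (hρ' : IsLift act (j.comp i) ρ')
    (hform : ∀ (σ : L' ≃ₐ[RatFunc k] L') (σ' : L ≃ₐ[RatFunc k] L)
        (φ : (F ≃ₐ[RatFunc k] F) → ZMod ℓ),
        (∀ x, σ (j x) = j (σ' x)) → (∀ x : F, σ (j (i x)) = j (i x)) →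
        (∀ q, σ (r q) = co k L' (ζ ^ (φ q).val) * r q) → ρ' σ = Θ φ * ρ σ')
    (c : k) (hg' : ∀ A : ValuationSubring F, IsPl k A → Over k A c →
      ∃ x : F, x ≠ 0 ∧ Un A (g * x ^ ℓ))
    (hc : UnrAt ρ c) : UnrAt ρ' c := by
  have : Fact ℓ.Prime := ⟨hℓ⟩
  intro B hB hBc σ hσ
  have hX := tX_mem_of_over hB hBc
  have h1 := fix_F act hunr (j.comp i) ρ' hρ' B hB hX σ hσ
  have hσF : ∀ x : F, σ (j (i x)) = j (i x) := by
    intro x
    have := hρ' σ x
    rw [h1] at this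
    exact this
  obtain ⟨res, hsurj, hres⟩ := exists_res (k := k) j
  obtain ⟨g1, g2, g3, g4, g5⟩ := comap_isPl j B hB
  have h2 : ρ (res σ) = 1 := hc _ g1 ((g2 c).2 hBc) _ (g5 σ (res σ) (hres σ) hσ)
  rw [hform σ (res σ) 0 (hres σ) hσF ?_, hΘ0, h2, one_mul]
  intro q
  rw [Pi.zero_apply, ZMod.val_zero, pow_zero, co_one, one_mul]
  obtain ⟨f1, f2, f3, f4, f5⟩ := comap_isPl (j.comp i) B hB
  obtain ⟨x, hx, hu⟩ := hg' (q⁻¹ • B.comap ((j.comp i : F →ₐ[RatFunc k] L') : F →+* L'))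
    (isPl_smul _ f1) ((over_smul_iff _ _).2 ((f2 c).2 hBc))
  exact char_trivial hℓ.pos (j.comp i) B hB σ hσ hσF g hg q (r q) (hr q) x hx hu

end

end Pool.Agent.Helper54.SR
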