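import Pool.Agent.Helper54.SR.Twist1

/-!
# Removing the ramification over a point
-/

set_option autoImplicit false
set_option linter.unusedSectionVars false
set_option linter.unusedVariables false
open scoped Pointwise
open Polynomial Pool.Agent.Helper54.PW

namespace Pool.Agent.Helper54.SR

section
variable {p : ℕ} [Fact p.Prime] {k : Type} [Field k] [IsAlgClosed k] [CharP k p]
  {F : Type} [Field F] [Algebra (RatFunc k) F] [FiniteDimensional (RatFunc k) F]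
  [IsGalois (RatFunc k) F] {L : Type} [Field L] [Algebra (RatFunc k) L]
  [FiniteDimensional (RatFunc k) L] [IsGalois (RatFunc k) L]
  {L' : Type} [Field L'] [Algebra (RatFunc k) L'] [FiniteDimensional (RatFunc k) L']
  [IsGalois (RatFunc k) L'] {G : Type} [Group G] [Finite G]

omit [FiniteDimensional (RatFunc k) L] [IsGalois (RatFunc k) L] in
theorem ne_zero_of_over {B : ValuationSubring L} (hB : IsPl k B) {c : k} :
    tX k L - co k L c ≠ 0 := by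
  intro h
  have h1 : algebraMap (RatFunc k) L (RatFunc.X - algebraMap k (RatFunc k) c) = 0 := by
    rw [map_sub]; exact h
  rw [map_eq_zero_iff _ (algebraMap (RatFunc k) L).injective] at h1
  have h2 : algebraMap k[X] (RatFunc k) (X - C c) = 0 := by
    rw [map_sub]
    have e1 : algebraMap k[X] (RatFunc k) X = RatFunc.X := RatFunc.algebraMap_X
    have e2 : algebraMap k[X] (RatFunc k) (C c) = algebraMap k (RatFunc k) c := by
      rw [RatFunc.algebraMap_C]; rfl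
    rw [e1, e2]; exact h1
  rw [map_eq_zero_iff _ (IsFractionRing.injective k[X] (RatFunc k))] at h2
  exact X_sub_C_ne_zero c h2

theorem exists_prim (hp : True) {ℓ : ℕ} (hℓ : ℓ.Prime) (hℓp : ℓ ≠ p) :
    ∃ ζ : k, IsPrimitiveRoot ζ ℓ := by
  have h1 : (ℓ : k) ≠ 0 := ell_ne_zero (p := p) hℓ hℓp
  have : NeZero ((ℓ : ℕ) : k) := ⟨h1⟩
  have : NeZero ℓ := ⟨hℓ.pos.ne'⟩
  obtain ⟨ζ, hζ⟩ := IsAlgClosed.exists_root (cyclotomic ℓ k) (by
    rw [degree_cyclotomic]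
    have := Nat.totient_pos.2 hℓ.pos
    exact_mod_cast this.ne')
  exact ⟨ζ, isRoot_cyclotomic_iff.1 hζ⟩

theorem remove_ram {ℓ : ℕ} (hℓ : ℓ.Prime) (hℓp : ℓ ≠ p) (V : Subgroup G) [V.Normal]
    (hVc : ∀ a b : V, a * b = b * a) (hVℓ : ∀ a : V, a ^ ℓ = 1)
    (act : G →* (F ≃ₐ[RatFunc k] F)) (hact : Function.Surjective act)
    (hker : ∀ g, act g = 1 ↔ g ∈ V) (hunr : UnrLine k F) (i : F →ₐ[RatFunc k] L)
    (ρ : (L ≃ₐ[RatFunc k] L) →* G) (hρ : IsLift act i ρ) (c : k) (hc : c ≠ 0) :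
    ∃ (L' : Type) (_ : Field L') (_ : Algebra (RatFunc k) L')
      (_ : FiniteDimensional (RatFunc k) L') (_ : IsGalois (RatFunc k) L')
      (i' : F →ₐ[RatFunc k] L') (ρ' : (L' ≃ₐ[RatFunc k] L') →* G), IsLift act i' ρ' ∧
      UnrAt ρ' c ∧ ∀ c', c' ≠ 0 → UnrAt ρ c' → UnrAt ρ' c' := by
  classical
  have hFℓ : Fact ℓ.Prime := ⟨hℓ⟩
  obtain ⟨ζ, hζ⟩ := exists_prim (k := k) (p := p) trivial hℓ hℓp
  obtain ⟨L₁, _, _, _, _, i₁, ρ₁, s, hρ₁, hur₁, -, hs⟩ :=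
    enlarge (p := p) hℓ hℓp act i ρ hρ (RatFunc.X - algebraMap k (RatFunc k) c)
  have hs' : s ^ ℓ = tX k L₁ - co k L₁ c := by rw [hs, map_sub]; rfl
  obtain ⟨A₁, hA₁, hc₁⟩ := exists_place_over k F c
  obtain ⟨A₂, hA₂, hc₂⟩ := exists_place_over k F 0
  have hne : A₁ ≠ A₂ := by
    rintro rfl
    exact hc (over_unique hA₁ hc₁ hc₂)
  obtain ⟨g, hg, hg1, hg2, hg3⟩ := exists_function hℓ.pos (ell_ne_zero (p := p) hℓ hℓp) hunr
    A₁ A₂ hA₁ hA₂ c 0 hc₁ hc₂ hne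
  obtain ⟨B₁, hB₁, hBA₁⟩ := exists_above i₁ A₁ hA₁
  have hBc₁ : Over k B₁ c := by
    rw [← (comap_isPl i₁ B₁ hB₁).2.1 c, hBA₁]; exact hc₁
  have hV1 : ∀ σ : L₁ ≃ₐ[RatFunc k] L₁, σ • B₁ = B₁ → ρ₁ σ ^ ℓ = 1 := by
    intro σ hσ
    have h1 := fix_F act hunr i₁ ρ₁ hρ₁ B₁ hB₁ (tX_mem_of_over hB₁ hBc₁) σ hσ
    rw [hker] at h1
    have := congrArg Subtype.val (hVℓ ⟨_, h1⟩)
    exact this
  obtain ⟨τ, hτ, hloc⟩ := local_hom (p := p) hℓ hℓp B₁ hB₁ _ (basePar_finite B₁ hB₁ c hBc₁) s hs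
    ζ hζ ρ₁ hV1
  have hτV : ρ₁ τ ∈ V := by
    rw [← hker]
    exact fix_F act hunr i₁ ρ₁ hρ₁ B₁ hB₁ (tX_mem_of_over hB₁ hBc₁) τ hτ
  obtain ⟨Θ, hΘV, hΘadd, hΘeq, hΘs⟩ := exists_Theta (G := G) hℓ V hVc hVℓ act hact hker
    (ρ₁ τ)⁻¹ (V.inv_mem hτV)
  have hΘ0 : Θ 0 = 1 := by
    have := hΘadd 0 0
    rw [add_zero] at this
    exact left_eq_mul.1 this
  obtain ⟨L₂, _, _, _, _, j, r, ρ₂, hr, hρ₂, hform⟩ := twist (p := p) hℓ hℓp act i₁ ρ₁ hρ₁ g hg ζ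
    hζ Θ (fun φ => (hker _).2 (hΘV φ)) hΘadd hΘeq
  refine ⟨L₂, inferInstance, inferInstance, inferInstance, inferInstance, j.comp i₁, ρ₂, hρ₂, ?_⟩
  have hUc : UnrAt ρ₂ c := by
    obtain ⟨B, hB, hBB⟩ := exists_above j B₁ hB₁
    have hBc : Over k B c := by
      rw [← (comap_isPl j B hB).2.1 c, hBB]; exact hBc₁
    apply unrAt_of_one ρ₂ c B hB hBc
    intro σ hσ
    have hX := tX_mem_of_over hB hBc
    have h1 := fix_F act hunr (j.comp i₁) ρ₂ hρ₂ B hB hX σ hσ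
    have hσF : ∀ x : F, σ (j (i₁ x)) = j (i₁ x) := by
      intro x
      have := hρ₂ σ x
      rw [h1] at this
      exact this
    obtain ⟨res, hsurj, hres⟩ := exists_res (k := k) j
    obtain ⟨g1, g2, g3, g4, g5⟩ := comap_isPl j B hB
    have hrB : res σ • B₁ = B₁ := by
      rw [← hBB]; exact g5 σ (res σ) (hres σ) hσ
    -- the value of σ on s
    have hs0 : s ≠ 0 := by
      rintro rfl
      rw [zero_pow hℓ.pos.ne'] at hs'
      exact ne_zero_of_over hB₁ hs'.symm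
    obtain ⟨e, he, hes⟩ : ∃ e < ℓ, res σ s = co k L₁ (ζ ^ e) * s := by
      have h2 : (res σ s) ^ ℓ = s ^ ℓ := by
        rw [← map_pow, hs, (res σ).commutes]
      have hζ' : IsPrimitiveRoot (co k L₁ ζ) ℓ :=
        hζ.map_of_injective (f := (algebraMap (RatFunc k) L₁).comp (algebraMap k (RatFunc k)))
          co_injective
      have h3 : (res σ s / s) ^ ℓ = 1 := by
        rw [div_pow, h2, div_self (pow_ne_zero _ hs0)]
      obtain ⟨e, he, hee⟩ := hζ'.eq_pow_of_pow_eq_one h3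
      refine ⟨e, he, ?_⟩
      rw [co_pow, hee, div_mul_cancel₀ _ hs0]
    have hρ₁σ : ρ₁ (res σ) = ρ₁ τ ^ e := hloc _ e hrB hes
    have hjs : (j s) ^ ℓ = tX k L₂ - co k L₂ c := by
      rw [← map_pow, hs', map_sub, tX_map, co_map]
    have hσs : σ (j s) = co k L₂ (ζ ^ e) * j s := by
      rw [hres, hes, map_mul, co_map]
    have hjs0 : j s ≠ 0 := by
      intro h
      apply hs0
      have : j s = j 0 := by rw [h, map_zero]
      exact (j : L₁ →+* L₂).injective this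
    obtain ⟨f1, f2, f3, f4, f5⟩ := comap_isPl (j.comp i₁) B hB
    have hBA : B.comap ((j.comp i₁ : F →ₐ[RatFunc k] L₂) : F →+* L₂) = A₁ := by
      rw [← hBA₁, ← hBB]
      rfl
    rw [hform σ (res σ) (Pi.single 1 (e : ZMod ℓ)) (hres σ) hσF ?_, ← map_one act, hΘs, hρ₁σ,
      one_mul, inv_one, mul_one, inv_pow, inv_mul_cancel]
    intro q
    by_cases hq : q = 1
    · subst hq
      obtain ⟨x, hx, hu⟩ := hg2
      have hu' : Un ((1 : F ≃ₐ[RatFunc k] F)⁻¹ •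
          B.comap ((j.comp i₁ : F →ₐ[RatFunc k] L₂) : F →+* L₂))
          (g * x ^ ℓ * (tX k F - co k F c) ^ (-1 : ℤ)) := by
        rw [hBA, inv_one, one_smul, zpow_neg_one]
        exact hu
      have h := char_eq hℓ.pos (j.comp i₁) B hB σ hσ hσF g hg 1 (r 1) (hr 1) x hx c (-1) hu'
        (j s) hjs0 hjs (ζ ^ e) hσs
      rw [h, Pi.single_eq_same, ZMod.val_natCast, Nat.mod_eq_of_lt he, neg_neg, zpow_one]
    · rw [Pi.single_eq_of_ne hq, ZMod.val_zero, pow_zero, co_one, one_mul]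
      have hq1 : q⁻¹ • A₁ ≠ A₁ := by
        intro h
        apply hq
        have := hunr A₁ hA₁ (tX_mem_of_over hA₁ hc₁) q⁻¹ h
        exact inv_eq_one.1 this
      have hq2 : q⁻¹ • A₁ ≠ A₂ := by
        intro h
        have h3 : Over k (q⁻¹ • A₁) c := (over_smul_iff _ _).2 hc₁
        rw [h] at h3
        exact hc (over_unique hA₂ h3 hc₂)
      obtain ⟨x, hx, hu⟩ := hg1 (q⁻¹ • A₁) (isPl_smul _ hA₁)
        ((tX_mem_smul_iff _).2 (tX_mem_of_over hA₁ hc₁)) hq1 hq2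
      rw [← hBA] at hu
      exact char_trivial hℓ.pos (j.comp i₁) B hB σ hσ hσF g hg q (r q) (hr q) x hx hu
  refine ⟨hUc, ?_⟩
  intro c' hc' hU
  by_cases hcc : c' = c
  · rw [hcc]; exact hUc
  refine twist_unr hℓ act hunr i₁ ρ₁ hρ₁ g hg ζ Θ hΘ0 j r ρ₂ hr hρ₂ hform c' ?_ (hur₁ c' hU)
  intro A hA hAc
  refine hg1 A hA (tX_mem_of_over hA hAc) ?_ ?_
  · rintro rfl
    exact hcc (over_unique hA hAc hc₁)
  · rintro rfl
    exact hc' (over_unique hA hAc hc₂)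

end

end Pool.Agent.Helper54.SR
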