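import Pool.Agent.Helper54.SR.Twist2

/-!
# Making a solution surjective, and the good solution
-/

set_option autoImplicit false
set_option linter.unusedSectionVars false
set_option linter.unusedVariables false
open scoped Pointwise
open Polynomial Pool.Agent.Helper54.PW

namespace Pool.Agent.Helper54.SR

section
variable {p : ℕ} [Fact p.Prime] {k : Type} [Field k] [IsAlgClosed k] [CharP k p]
  {F : Type} [Field F] [Algebra (RatFunc k) F] [FiniteDimensional (RatFunc k) F]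
  [IsGalois (RatFunc k) F] {L : Type} [Field L] [Algebra (RatFunc k) L]
  [FiniteDimensional (RatFunc k) L] [IsGalois (RatFunc k) L]
  {L' : Type} [Field L'] [Algebra (RatFunc k) L'] [FiniteDimensional (RatFunc k) L']
  [IsGalois (RatFunc k) L'] {G : Type} [Group G] [Finite G]

/-- the image of a solution together with `V` is everything -/
theorem mul_mem_range (V : Subgroup G) (act : G →* (F ≃ₐ[RatFunc k] F))
    (hker : ∀ g, act g = 1 ↔ g ∈ V) (i : F →ₐ[RatFunc k] L)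
    (ρ : (L ≃ₐ[RatFunc k] L) →* G) (hρ : IsLift act i ρ) (g : G) :
    ∃ σ : L ≃ₐ[RatFunc k] L, ∃ u ∈ V, g = ρ σ * u := by
  obtain ⟨res, hsurj, hres⟩ := exists_res (k := k) i
  obtain ⟨σ, hσ⟩ := hsurj (act g)
  refine ⟨σ, (ρ σ)⁻¹ * g, ?_, by group⟩
  rw [← hker, map_mul, map_inv, inv_mul_eq_one]
  refine AlgEquiv.ext fun x => (i : F →+* L).injective ?_
  show i (act (ρ σ) x) = i (act g x)
  rw [← hρ, ← hσ, hres]

theorem range_inf_normal (V : Subgroup G) [V.Normal] (hVc : ∀ a b : V, a * b = b * a)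
    (R : Subgroup G) (hR : ∀ g : G, ∃ r ∈ R, ∃ u ∈ V, g = r * u) : (R ⊓ V).Normal := by
  constructor
  rintro n ⟨hn, hnV⟩ g
  obtain ⟨r, hr, u, hu, rfl⟩ := hR g
  have h1 : u * n * u⁻¹ = n := by
    have := congrArg Subtype.val (hVc ⟨u, hu⟩ ⟨n, hnV⟩)
    simp only [Subgroup.coe_mul] at this
    rw [this, mul_inv_cancel_right]
  have h2 : r * u * n * (r * u)⁻¹ = r * n * r⁻¹ := by
    rw [mul_inv_rev]
    calc r * u * n * (u⁻¹ * r⁻¹) = r * (u * n * u⁻¹) * r⁻¹ := by group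
      _ = r * n * r⁻¹ := by rw [h1]
  rw [h2]
  exact ⟨R.mul_mem (R.mul_mem hr hn) (R.inv_mem hr), ‹V.Normal›.conj_mem n hnV r⟩

theorem surj_of_meets (V : Subgroup G) [V.Normal] (hVc : ∀ a b : V, a * b = b * a)
    (hVmin : ∀ W : Subgroup G, W.Normal → W ≤ V → W = ⊥ ∨ W = V)
    (R : Subgroup G) (hR : ∀ g : G, ∃ r ∈ R, ∃ u ∈ V, g = r * u) (h : R ⊓ V ≠ ⊥) : R = ⊤ := by
  rcases hVmin _ (range_inf_normal V hVc R hR) inf_le_right with h1 | h1
  · exact absurd h1 h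
  · rw [eq_top_iff]
    intro g _
    obtain ⟨r, hr, u, hu, rfl⟩ := hR g
    refine R.mul_mem hr ?_
    rw [← h1] at hu
    exact hu.1

theorem make_surjective {ℓ : ℕ} (hℓ : ℓ.Prime) (hℓp : ℓ ≠ p) (V : Subgroup G) [V.Normal]
    (hVc : ∀ a b : V, a * b = b * a) (hVℓ : ∀ a : V, a ^ ℓ = 1) (hVne : V ≠ ⊥)
    (hVmin : ∀ W : Subgroup G, W.Normal → W ≤ V → W = ⊥ ∨ W = V)
    (P : Subgroup G) (hP : IsPGroup p P) (hgen : Subgroup.normalClosure (P : Set G) = ⊤)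
    (act : G →* (F ≃ₐ[RatFunc k] F)) (hact : Function.Surjective act)
    (hker : ∀ g, act g = 1 ↔ g ∈ V) (hunr : UnrLine k F) (i : F →ₐ[RatFunc k] L)
    (ρ : (L ≃ₐ[RatFunc k] L) →* G) (hρ : IsLift act i ρ) (hur : ∀ c, c ≠ 0 → UnrAt ρ c) :
    ∃ (L' : Type) (_ : Field L') (_ : Algebra (RatFunc k) L')
      (_ : FiniteDimensional (RatFunc k) L') (_ : IsGalois (RatFunc k) L')
      (i' : F →ₐ[RatFunc k] L') (ρ' : (L' ≃ₐ[RatFunc k] L') →* G), IsLift act i' ρ' ∧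
      Function.Surjective ρ' ∧ ∀ c, c ≠ 0 → UnrAt ρ' c := by
  classical
  have hFℓ : Fact ℓ.Prime := ⟨hℓ⟩
  have hR : ∀ g : G, ∃ r ∈ ρ.range, ∃ u ∈ V, g = r * u := by
    intro g
    obtain ⟨σ, u, hu, h⟩ := mul_mem_range V act hker i ρ hρ g
    exact ⟨ρ σ, ⟨σ, rfl⟩, u, hu, h⟩
  by_cases hmeet : ρ.range ⊓ V = ⊥
  swap
  · exact ⟨L, inferInstance, inferInstance, inferInstance, inferInstance, i, ρ, hρ,
      MonoidHom.range_eq_top.1 (surj_of_meets V hVc hVmin _ hR hmeet), hur⟩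
  by_cases hcen : ∀ h : G, ∀ v ∈ V, h * v * h⁻¹ = v
  · -- V central: contradiction
    exfalso
    apply hVne
    have hRn : ρ.range.Normal := by
      constructor
      intro n hn g
      obtain ⟨r, hr, u, hu, rfl⟩ := hR g
      have h1 : u * n * u⁻¹ = n := by
        have h2 := hcen n u hu
        have h3 : n * u = u * n := by
          calc n * u = n * u * n⁻¹ * n := by group
            _ = u * n := by rw [h2]
        rw [← h3, mul_inv_cancel_right]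
      have h2 : r * u * n * (r * u)⁻¹ = r * n * r⁻¹ := by
        rw [mul_inv_rev]
        calc r * u * n * (u⁻¹ * r⁻¹) = r * (u * n * u⁻¹) * r⁻¹ := by group
          _ = r * n * r⁻¹ := by rw [h1]
      rw [h2]
      exact ρ.range.mul_mem (ρ.range.mul_mem hr hn) (ρ.range.inv_mem hr)
    have hpow : ∀ g : G, g ^ ℓ ∈ ρ.range := by
      intro g
      obtain ⟨r, hr, u, hu, rfl⟩ := hR g
      have hc : Commute r u := by
        have h2 := hcen r u hu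
        show r * u = u * r
        calc r * u = r * u * r⁻¹ * r := by group
          _ = u * r := by rw [h2]
      rw [hc.mul_pow]
      have : u ^ ℓ = 1 := congrArg Subtype.val (hVℓ ⟨u, hu⟩)
      rw [this, mul_one]
      exact ρ.range.pow_mem hr ℓ
    have hPR : (P : Set G) ⊆ ρ.range := by
      intro g hg
      obtain ⟨n, hn⟩ := hP ⟨g, hg⟩
      have hn' : g ^ p ^ n = 1 := congrArg Subtype.val hn
      have hcop : Nat.Coprime ℓ (p ^ n) :=
        Nat.Coprime.pow_right n ((Nat.coprime_primes hℓ (Fact.out : p.Prime)).2 hℓp)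
      obtain ⟨a, ha⟩ : ∃ a : ℤ, g = (g ^ ℓ) ^ a := by
        have hb := Nat.gcd_eq_gcd_ab ℓ (p ^ n)
        rw [hcop] at hb
        refine ⟨Nat.gcdA ℓ (p ^ n), ?_⟩
        have h1 : (g : G) ^ (((1 : ℕ)) : ℤ) = (g ^ ℓ) ^ (Nat.gcdA ℓ (p ^ n)) := by
          rw [hb, zpow_add, zpow_mul, zpow_mul, zpow_natCast, zpow_natCast, hn', one_zpow, mul_one]
        rw [← h1]; simp
      show g ∈ ρ.range
      rw [ha]
      exact ρ.range.zpow_mem (hpow g) a
    have htop : ρ.range = ⊤ := by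
      rw [eq_top_iff, ← hgen]
      exact Subgroup.normalClosure_le_normal hPR
    rw [htop, top_inf_eq] at hmeet
    exact hmeet
  push Not at hcen
  obtain ⟨h, v, hv, hhv⟩ := hcen
  obtain ⟨ζ, hζ⟩ := exists_prim (k := k) (p := p) trivial hℓ hℓp
  obtain ⟨L₁, _, _, _, _, i₁, ρ₁, s, hρ₁, hur₁, hrange₁, hs⟩ :=
    enlarge (p := p) hℓ hℓp act i ρ hρ (RatFunc.X - algebraMap k (RatFunc k) 0)
  have hs' : s ^ ℓ = tX k L₁ - co k L₁ 0 := by rw [hs, map_sub]; rfl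
  obtain ⟨A₂, hA₂, hc₂⟩ := exists_place_over k F 0
  have hh1 : act h ≠ 1 := by
    intro h1
    rw [hker] at h1
    apply hhv
    have := congrArg Subtype.val (hVc ⟨h, h1⟩ ⟨v, hv⟩)
    simp only [Subgroup.coe_mul] at this
    rw [this, mul_inv_cancel_right]
  set q₁ : F ≃ₐ[RatFunc k] F := (act h)⁻¹ with hq₁
  have hX₂ := tX_mem_of_over hA₂ hc₂
  have hA₁ : IsPl k (q₁ • A₂) := isPl_smul _ hA₂
  have hc₁ : Over k (q₁ • A₂) 0 := (over_smul_iff _ _).2 hc₂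
  have hne : q₁ • A₂ ≠ A₂ := by
    intro h1
    apply hh1
    have := hunr A₂ hA₂ hX₂ q₁ h1
    exact inv_eq_one.1 this
  obtain ⟨g, hg, hg1, hg2, hg3⟩ := exists_function hℓ.pos (ell_ne_zero (p := p) hℓ hℓp) hunr
    (q₁ • A₂) A₂ hA₁ hA₂ 0 0 hc₁ hc₂ hne
  obtain ⟨Θ, hΘV, hΘadd, hΘeq, hΘs⟩ := exists_Theta (G := G) hℓ V hVc hVℓ act hact hker
    v hv
  have hΘ0 : Θ 0 = 1 := by
    have := hΘadd 0 0
    rw [add_zero] at this
    exact left_eq_mul.1 this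
  obtain ⟨L₂, _, _, _, _, j, r, ρ₂, hr, hρ₂, hform⟩ := twist (p := p) hℓ hℓp act i₁ ρ₁ hρ₁ g hg ζ
    hζ Θ (fun φ => (hker _).2 (hΘV φ)) hΘadd hΘeq
  refine ⟨L₂, inferInstance, inferInstance, inferInstance, inferInstance, j.comp i₁, ρ₂, hρ₂,
    ?_, ?_⟩
  swap
  · intro c' hc'
    refine twist_unr hℓ act hunr i₁ ρ₁ hρ₁ g hg ζ Θ hΘ0 j r ρ₂ hr hρ₂ hform c' ?_
      (hur₁ c' (hur c' hc'))
    intro A hA hAc
    refine hg1 A hA (tX_mem_of_over hA hAc) ?_ ?_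
    · rintro rfl
      exact hc' (over_unique hA hAc hc₁)
    · rintro rfl
      exact hc' (over_unique hA hAc hc₂)
  -- surjectivity
  rw [← MonoidHom.range_eq_top]
  refine surj_of_meets V hVc hVmin _ ?_ ?_
  · intro g
    obtain ⟨σ, u, hu, h⟩ := mul_mem_range V act hker (j.comp i₁) ρ₂ hρ₂ g
    exact ⟨ρ₂ σ, ⟨σ, rfl⟩, u, hu, h⟩
  obtain ⟨B, hB, hBA⟩ := exists_above (j.comp i₁) A₂ hA₂
  have hBc : Over k B 0 := by
    rw [← (comap_isPl (j.comp i₁) B hB).2.1 0, hBA]; exact hc₂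
  have hX := tX_mem_of_over hB hBc
  have hs0 : s ≠ 0 := by
    rintro rfl
    rw [zero_pow hℓ.pos.ne'] at hs'
    exact ne_zero_of_over (comap_isPl j B hB).1 hs'.symm
  have hjs : (j s) ^ ℓ = tX k L₂ - co k L₂ 0 := by
    rw [← map_pow, hs', map_sub, tX_map, co_map]
  have hjs0 : j s ≠ 0 := by
    intro h
    apply hs0
    have : j s = j 0 := by rw [h, map_zero]
    exact (j : L₁ →+* L₂).injective this
  obtain ⟨σ, hσ, hσs⟩ := kummer_nontriv (p := p) hℓ hℓp B hB _ (basePar_finite B hB 0 hBc) (j s)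
    (by rw [hjs, map_sub]; rfl) ζ hζ
  have h1 := fix_F act hunr (j.comp i₁) ρ₂ hρ₂ B hB hX σ hσ
  have hσF : ∀ x : F, σ (j (i₁ x)) = j (i₁ x) := by
    intro x
    have := hρ₂ σ x
    rw [h1] at this
    exact this
  obtain ⟨res, hsurj, hres⟩ := exists_res (k := k) j
  -- ρ₁ is trivial on the restriction
  have hρ1 : ρ₁ (res σ) = 1 := by
    have h2 : ρ₁ (res σ) ∈ V := by
      rw [← hker]
      refine AlgEquiv.ext fun x => (i₁ : F →+* L₁).injective ?_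
      show i₁ (act (ρ₁ (res σ)) x) = i₁ x
      rw [← hρ₁]
      apply (j : L₁ →+* L₂).injective
      show j (res σ (i₁ x)) = j (i₁ x)
      rw [← hres, hσF]
    have h3 : ρ₁ (res σ) ∈ ρ.range ⊓ V := ⟨by rw [← hrange₁]; exact ⟨_, rfl⟩, h2⟩
    rw [hmeet, Subgroup.mem_bot] at h3
    exact h3
  have hq1 : q₁⁻¹ ≠ 1 := by
    rw [hq₁, inv_inv]; exact hh1
  have hval : ρ₂ σ = h * v * h⁻¹ * v⁻¹ := by
    have hm1 : ((ℓ - 1 : ℕ) : ZMod ℓ) = -1 := by
      rw [Nat.cast_sub hℓ.one_lt.le, Nat.cast_one, ZMod.natCast_self, zero_sub]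
    have hvℓ : v ^ (ℓ - 1) = v⁻¹ := by
      have : v ^ ℓ = 1 := congrArg Subtype.val (hVℓ ⟨v, hv⟩)
      rw [eq_inv_iff_mul_eq_one, ← pow_succ, Nat.sub_add_cancel hℓ.one_lt.le, this]
    have e1 : Θ (Pi.single q₁⁻¹ ((1 : ℕ) : ZMod ℓ)) = h * v * h⁻¹ := by
      have := hΘs h 1
      rw [pow_one] at this
      rw [← this, hq₁, inv_inv]
    have e2 : Θ (Pi.single 1 ((ℓ - 1 : ℕ) : ZMod ℓ)) = v⁻¹ := by
      have := hΘs 1 (ℓ - 1)
      rw [map_one, hvℓ, one_mul, inv_one, mul_one] at this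
      exact this
    rw [hform σ (res σ) (Pi.single q₁⁻¹ ((1 : ℕ) : ZMod ℓ) + Pi.single 1 ((ℓ - 1 : ℕ) : ZMod ℓ))
      (hres σ) hσF ?_, hΘadd, e1, e2, hρ1, mul_one]
    intro q
    rw [Pi.add_apply]
    by_cases hqa : q = 1
    · subst hqa
      rw [Pi.single_eq_of_ne (Ne.symm hq1), zero_add, Pi.single_eq_same]
      obtain ⟨x, hx, hu⟩ := hg3
      have hu' : Un ((1 : F ≃ₐ[RatFunc k] F)⁻¹ •
          B.comap ((j.comp i₁ : F →ₐ[RatFunc k] L₂) : F →+* L₂))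
          (g * x ^ ℓ * (tX k F - co k F 0) ^ (1 : ℤ)) := by
        rw [hBA, inv_one, one_smul, zpow_one]
        exact hu
      have h := char_eq hℓ.pos (j.comp i₁) B hB σ hσ hσF g hg 1 (r 1) (hr 1) x hx 0 1 hu'
        (j s) hjs0 hjs ζ hσs
      rw [h, ZMod.val_natCast, Nat.mod_eq_of_lt (Nat.sub_lt hℓ.pos one_pos)]
      congr 2
      rw [zpow_neg_one]
      exact inv_eq_of_mul_eq_one_right (by
        rw [← pow_succ', Nat.sub_add_cancel hℓ.one_lt.le, hζ.pow_eq_one])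
    by_cases hqb : q = q₁⁻¹
    · subst hqb
      rw [Pi.single_eq_same, Pi.single_eq_of_ne hqa, add_zero]
      obtain ⟨x, hx, hu⟩ := hg2
      have hu' : Un ((q₁⁻¹)⁻¹ •
          B.comap ((j.comp i₁ : F →ₐ[RatFunc k] L₂) : F →+* L₂))
          (g * x ^ ℓ * (tX k F - co k F 0) ^ (-1 : ℤ)) := by
        rw [hBA, inv_inv, zpow_neg_one]
        exact hu
      have h := char_eq hℓ.pos (j.comp i₁) B hB σ hσ hσF g hg q₁⁻¹ (r q₁⁻¹) (hr _) x hx 0 (-1) hu'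
        (j s) hjs0 hjs ζ hσs
      rw [h, neg_neg, zpow_one, ZMod.val_natCast, Nat.mod_eq_of_lt hℓ.one_lt, pow_one]
    · rw [Pi.single_eq_of_ne hqa, Pi.single_eq_of_ne hqb, add_zero, ZMod.val_zero, pow_zero,
        co_one, one_mul]
      have hqA1 : q⁻¹ • A₂ ≠ q₁ • A₂ := by
        intro h
        apply hqb
        have h5 : (q * q₁) • A₂ = A₂ := by
          rw [mul_smul, ← h, smul_inv_smul]
        have := hunr A₂ hA₂ hX₂ _ h5
        exact eq_inv_of_mul_eq_one_left this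
      have hqA2 : q⁻¹ • A₂ ≠ A₂ := by
        intro h
        apply hqa
        have := hunr A₂ hA₂ hX₂ q⁻¹ h
        exact inv_eq_one.1 this
      obtain ⟨x, hx, hu⟩ := hg1 (q⁻¹ • A₂) (isPl_smul _ hA₂)
        ((tX_mem_smul_iff _).2 hX₂) hqA1 hqA2
      rw [← hBA] at hu
      exact char_trivial hℓ.pos (j.comp i₁) B hB σ hσ hσF g hg q (r q) (hr q) x hx hu
  intro hbot
  have h5 : ρ₂ σ ∈ ρ₂.range ⊓ V := by
    refine ⟨⟨σ, rfl⟩, ?_⟩
    show ρ₂ σ ∈ V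
    rw [← hker]; exact h1
  rw [hbot, Subgroup.mem_bot, hval] at h5
  apply hhv
  exact mul_inv_eq_one.1 h5

theorem remove_all {ℓ : ℕ} (hℓ : ℓ.Prime) (hℓp : ℓ ≠ p) (V : Subgroup G) [V.Normal]
    (hVc : ∀ a b : V, a * b = b * a) (hVℓ : ∀ a : V, a ^ ℓ = 1)
    (act : G →* (F ≃ₐ[RatFunc k] F)) (hact : Function.Surjective act)
    (hker : ∀ g, act g = 1 ↔ g ∈ V) (hunr : UnrLine k F) (n : ℕ) :
    ∀ (L : Type) [Field L] [Algebra (RatFunc k) L] [FiniteDimensional (RatFunc k) L]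
    [IsGalois (RatFunc k) L] (i : F →ₐ[RatFunc k] L)
    (ρ : (L ≃ₐ[RatFunc k] L) →* G) (hρ : IsLift act i ρ) (S : Finset k) (hS : S.card = n)
    (hur : ∀ c, c ∉ S → c ≠ 0 → UnrAt ρ c),
    ∃ (L' : Type) (_ : Field L') (_ : Algebra (RatFunc k) L')
      (_ : FiniteDimensional (RatFunc k) L') (_ : IsGalois (RatFunc k) L')
      (i' : F →ₐ[RatFunc k] L') (ρ' : (L' ≃ₐ[RatFunc k] L') →* G), IsLift act i' ρ' ∧
      ∀ c, c ≠ 0 → UnrAt ρ' c := by
  classical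
  induction n with
  | zero =>
    intro L _ _ _ _ i ρ hρ S hS hur
    rw [Finset.card_eq_zero] at hS
    subst hS
    exact ⟨L, inferInstance, inferInstance, inferInstance, inferInstance, i, ρ, hρ,
      fun c hc => hur c (Finset.notMem_empty c) hc⟩
  | succ n ih =>
    intro L _ _ _ _ i ρ hρ S hS hur
    obtain ⟨c, hc⟩ : S.Nonempty := by
      rw [← Finset.card_pos, hS]; exact Nat.succ_pos n
    have hcard : (S.erase c).card = n := by
      rw [Finset.card_erase_of_mem hc, hS]; rfl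
    by_cases hc0 : c = 0
    · refine ih L i ρ hρ (S.erase c) hcard ?_
      intro c' h1 h2
      apply hur c' _ h2
      intro h3
      exact h1 (Finset.mem_erase.2 ⟨by rw [hc0]; exact h2, h3⟩)
    · obtain ⟨L₁, _, _, _, _, i₁, ρ₁, h1, h2, h3⟩ :=
        remove_ram (p := p) hℓ hℓp V hVc hVℓ act hact hker hunr i ρ hρ c hc0
      refine ih L₁ i₁ ρ₁ h1 (S.erase c) hcard ?_
      intro c' h4 h5
      by_cases hcc : c' = c
      · rw [hcc]; exact h2
      · exact h3 c' h5 (hur c' (fun h6 => h4 (Finset.mem_erase.2 ⟨hcc, h6⟩)) h5)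

theorem exists_good_lift {ℓ : ℕ} (hℓ : ℓ.Prime) (hℓp : ℓ ≠ p) (V : Subgroup G) [V.Normal]
    (hVc : ∀ a b : V, a * b = b * a) (hVℓ : ∀ a : V, a ^ ℓ = 1) (hVne : V ≠ ⊥)
    (hVmin : ∀ W : Subgroup G, W.Normal → W ≤ V → W = ⊥ ∨ W = V)
    (P : Subgroup G) (hP : IsPGroup p P) (hgen : Subgroup.normalClosure (P : Set G) = ⊤)
    (act : G →* (F ≃ₐ[RatFunc k] F)) (hact : Function.Surjective act)
    (hker : ∀ g, act g = 1 ↔ g ∈ V) (hunr : UnrLine k F) :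
    ∃ (L : Type) (_ : Field L) (_ : Algebra (RatFunc k) L)
      (_ : FiniteDimensional (RatFunc k) L) (_ : IsGalois (RatFunc k) L)
      (i : F →ₐ[RatFunc k] L) (ρ : (L ≃ₐ[RatFunc k] L) →* G) (s : L), IsLift act i ρ ∧
      Function.Surjective ρ ∧ (∀ c, c ≠ 0 → UnrAt ρ c) ∧ s ^ ℓ = tX k L := by
  obtain ⟨L, _, _, _, _, i, ρ, hρ⟩ := weak_lift' (p := p) hℓ hℓp V hVc hVℓ act hact hker
  obtain ⟨L₁, _, _, _, _, i₁, ρ₁, hρ₁, h1⟩ := remove_all (p := p) hℓ hℓp V hVc hVℓ act hact hker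
    hunr _ L i ρ hρ (finite_ramified k L).toFinset rfl (by
      intro c hc _ A hA hAc σ hσ
      by_contra hne
      apply hc
      rw [Set.Finite.mem_toFinset]
      refine ⟨A, hA, hAc, σ, hσ, ?_⟩
      rintro rfl
      exact hne (map_one ρ))
  obtain ⟨L₂, _, _, _, _, i₂, ρ₂, hρ₂, h2, h3⟩ := make_surjective (p := p) hℓ hℓp V hVc hVℓ hVne
    hVmin P hP hgen act hact hker hunr i₁ ρ₁ hρ₁ h1
  obtain ⟨L₃, _, _, _, _, i₃, ρ₃, s, hρ₃, h4, h5, h6⟩ := enlarge (p := p) hℓ hℓp act i₂ ρ₂ hρ₂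
    RatFunc.X
  exact ⟨L₃, inferInstance, inferInstance, inferInstance, inferInstance, i₃, ρ₃, s, hρ₃, by
    rw [← MonoidHom.range_eq_top, h5, MonoidHom.range_eq_top]; exact h2,
    fun c hc => h4 c (h3 c hc), h6⟩

end

end Pool.Agent.Helper54.SR
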